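import Mathlib

set_option autoImplicit false

/-!
# PDP: two sets with all ratios in a set with few elements in every window of heights
-/

noncomputable section

namespace Pool.Agent.PDP

/-- at most `B` elements of `S` have `h` in `[T, 3 T]`, for every `T` -/
def Few {K : Type} (h : K → ℝ) (S : Set K) (B : ℕ) : Prop :=
  ∀ (T : ℝ) (s : Finset K), (∀ l ∈ s, l ∈ S ∧ T ≤ h l ∧ h l ≤ 3 * T) → s.card ≤ B

theorem bip (K : Type) [Field K] (h : K → ℝ) (h0 : ∀ x, 0 ≤ h x)
    (hm : ∀ x y, h (x * y) ≤ h x + h y) (hi : ∀ x, h x⁻¹ = h x) (S : Set K) (B : ℕ)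
    (hS : Few h S B)
    (P Q : Finset K) (hP : ∀ p ∈ P, p ≠ 0) (hQ : ∀ q ∈ Q, q ≠ 0)
    (hPQ : ∀ p ∈ P, ∀ q ∈ Q, p / q ∈ S) : P.card ≤ 2 * B ∨ Q.card ≤ 2 * B := by
  classical
  by_contra hcon
  push Not at hcon
  obtain ⟨hPc, hQc⟩ := hcon
  have hne : (P ×ˢ Q).Nonempty := by
    rw [Finset.nonempty_product]
    exact ⟨Finset.card_pos.1 (by omega), Finset.card_pos.1 (by omega)⟩
  obtain ⟨⟨a, b⟩, hab, hmax⟩ := Finset.exists_max_image (P ×ˢ Q)
    (fun z : K × K => h (z.1 / z.2)) hne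
  obtain ⟨ha, hb⟩ := Finset.mem_product.1 hab
  dsimp only at ha hb hmax
  set D := h (a / b) with hD
  have hD0 : 0 ≤ D := h0 _
  have hmax' : ∀ p ∈ P, ∀ q ∈ Q, h (p / q) ≤ D := fun p hp q hq =>
    hmax (p, q) (Finset.mem_product.2 ⟨hp, hq⟩)
  have htri : ∀ p ∈ P, ∀ q ∈ Q, D ≤ h (a / q) + h (p / q) +
      h (p / b) := by
    intro p hp q hq
    have e : a / b = (a / q) * ((p / q)⁻¹ * (p / b)) := by
      have h1 := hP p hp
      have h2 := hQ q hq
      have h3 := hQ b hb
      field_simp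
    have h1 := hm (a / q) ((p / q)⁻¹ * (p / b))
    have h2 := hm (p / q)⁻¹ (p / b)
    rw [hi] at h2
    rw [hD, e]
    linarith
  -- the elements of `P` far from `b`
  have hP1 : (P.filter fun p => D / 3 ≤ h (p / b)).card ≤ B := by
    rw [← Finset.card_image_of_injOn (f := fun p => p / b)
      (fun x _ y _ hxy => (div_left_inj' (hQ b hb)).1 hxy)]
    refine hS (D / 3) _ fun l hl => ?_
    obtain ⟨p, hp, rfl⟩ := Finset.mem_image.1 hl
    obtain ⟨hp1, hp2⟩ := Finset.mem_filter.1 hp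
    refine ⟨hPQ p hp1 b hb, hp2, ?_⟩
    have := hmax' p hp1 b hb
    linarith
  have hQ1 : (Q.filter fun q => D / 3 ≤ h (a / q)).card ≤ B := by
    rw [← Finset.card_image_of_injOn (f := fun q => a / q)
      (fun x hx y hy hxy => by
        have h1 := hQ x (Finset.mem_filter.1 hx).1
        have h2 := hQ y (Finset.mem_filter.1 hy).1
        have h3 := hP a ha
        have h4 : a / x = a / y := hxy
        field_simp at h4
        exact h4.symm)]
    refine hS (D / 3) _ fun l hl => ?_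
    obtain ⟨q, hq, rfl⟩ := Finset.mem_image.1 hl
    obtain ⟨hq1, hq2⟩ := Finset.mem_filter.1 hq
    refine ⟨hPQ a ha q hq1, hq2, ?_⟩
    have := hmax' a ha q hq1
    linarith
  -- a good `q`
  obtain ⟨q, hq, hq2⟩ : ∃ q ∈ Q, h (a / q) < D / 3 := by
    by_contra hall
    push Not at hall
    have : Q.filter (fun q => D / 3 ≤ h (a / q)) = Q := Finset.filter_true_of_mem hall
    rw [this] at hQ1
    omega
  have hP2 : (P.filter fun p => ¬ D / 3 ≤ h (p / b)).card ≤ B := by
    rw [← Finset.card_image_of_injOn (f := fun p => p / q)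
      (fun x _ y _ hxy => (div_left_inj' (hQ q hq)).1 hxy)]
    refine hS (D / 3) _ fun l hl => ?_
    obtain ⟨p, hp, rfl⟩ := Finset.mem_image.1 hl
    obtain ⟨hp1, hp2⟩ := Finset.mem_filter.1 hp
    refine ⟨hPQ p hp1 q hq, ?_, ?_⟩
    · have := htri p hp1 q hq
      push Not at hp2
      linarith
    · have := hmax' p hp1 q hq
      linarith
  have hsum := Finset.card_filter_add_card_filter_not (s := P)
    (fun p => D / 3 ≤ h (p / b))
  omega

end Pool.Agent.PDP
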