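import Pool.Agent.PDP.Cycle

set_option autoImplicit false

/-!
# PDP: tails of cycles of length at least three
-/

open Polynomial Height Height.AdmissibleAbsValues NumberField IsDedekindDomain
open scoped WithZero

noncomputable section

namespace Pool.Agent.PDP

section Loc

variable {L Γ : Type} [Field L] [LinearOrderedCommGroupWithZero Γ] {w : Valuation L Γ} {g : L[X]}
  {c : L}

/-- the quotient `(f(x) - f(y)) / (x - y)` -/
def Qf (g : L[X]) (x y : L) : L := ∑ i ∈ Finset.range (g.natDegree + 1), g.coeff i * Si i x y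

lemma Qf_mul (x y : L) : Qf g x y * (x - y) = fg g c x - fg g c y := by
  rw [fg_sub]
  rfl

lemma pow_sub_le {x y : L} (hx : w x ≤ 1) (hy : w y ≤ 1) (j : ℕ) :
    w (x ^ j - y ^ j) ≤ w (x - y) := by
  rcases j with _ | j
  · simp
  · rw [← Si_mul, map_mul]
    have := Si_le hx hy j
    rw [one_pow] at this
    calc _ ≤ 1 * w (x - y) := mul_le_mul_left this _
      _ = w (x - y) := one_mul _

lemma Qf_sub_le (hg : IG w g) {x x' y : L} (hx : w x ≤ 1) (hx' : w x' ≤ 1) (hy : w y ≤ 1) :
    w (Qf g x y - Qf g x' y) ≤ w (x - x') := by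
  unfold Qf
  rw [← Finset.sum_sub_distrib]
  refine Valuation.map_sum_le w fun i _ => ?_
  rw [← mul_sub, map_mul]
  have h1 : w (Si i x y - Si i x' y) ≤ w (x - x') := by
    unfold Si
    rw [← Finset.sum_sub_distrib]
    refine Valuation.map_sum_le w fun j _ => ?_
    rw [← sub_mul, map_mul, map_pow]
    calc w (x ^ j - x' ^ j) * w y ^ (i - 1 - j) ≤ w (x - x') * 1 :=
          mul_le_mul' (pow_sub_le hx hx' j) (pow_le_one' hy _)
      _ = w (x - x') := mul_one _
  calc w (g.coeff i) * w (Si i x y - Si i x' y) ≤ 1 * w (x - x') := mul_le_mul' (hg.1 i) h1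
    _ = w (x - x') := one_mul _

/-- iterates do not increase distances -/
lemma lip_it (hg : IG w g) (hd : 2 ≤ g.natDegree) (hc : w c ≤ 1) {x y : L} (hx : Pre g c x)
    (hy : Pre g c y) (k : ℕ) : w ((fg g c)^[k] x - (fg g c)^[k] y) ≤ w (x - y) := by
  induction k with
  | zero => exact le_refl _
  | succ k ih =>
    rw [Function.iterate_succ_apply', Function.iterate_succ_apply']
    exact (lip hg (pre_le hg hd hc (pre_it hx k)) (pre_le hg hd hc (pre_it hy k))).trans ih

/-- `u` is not periodic, `y` and `y'` are different periodic points congruent to `u`: then `u`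
and `y` never meet -/
lemma never_meet (hg : IG w g) (hd : 2 ≤ g.natDegree) (hc : w c ≤ 1) {u y y' : L}
    (hu : Pre g c u) {n : ℕ} (hn : 0 < n) (hy : (fg g c)^[n] y = y) (hy' : (fg g c)^[n] y' = y')
    (hne : y ≠ y') (huy : w (u - y') < 1) (k : ℕ) (huk : u ≠ y) :
    (fg g c)^[k] u ≠ (fg g c)^[k] y := by
  have py : Pre g c y := pre_of_periodic hn hy
  have py' : Pre g c y' := pre_of_periodic hn hy'
  have hw0 : w (y' - y) ≠ 0 := (Valuation.ne_zero_iff w).2 (sub_ne_zero.2 hne.symm)
  have hconst : ∀ k, w ((fg g c)^[k] y' - (fg g c)^[k] y) = w (y' - y) := by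
    intro k
    refine le_antisymm (lip_it hg hd hc py' py k) ?_
    have h1 := lip_it hg hd hc (pre_it py' k) (pre_it py k) (k * n - k)
    rw [← Function.iterate_add_apply, ← Function.iterate_add_apply,
      Nat.sub_add_cancel (Nat.le_mul_of_pos_right k hn)] at h1
    have h2 : (fg g c)^[k * n] y' = y' := Function.IsPeriodicPt.const_mul hy' k
    have h3 : (fg g c)^[k * n] y = y := Function.IsPeriodicPt.const_mul hy k
    rwa [h2, h3] at h1
  induction k with
  | zero => exact huk
  | succ k ih =>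
    intro h
    rw [Function.iterate_succ_apply', Function.iterate_succ_apply'] at h
    have h1 : Qf g ((fg g c)^[k] u) ((fg g c)^[k] y) = 0 := by
      have := Qf_mul (g := g) (c := c) ((fg g c)^[k] u) ((fg g c)^[k] y)
      rw [h, sub_self] at this
      exact (mul_eq_zero.1 this).resolve_right (sub_ne_zero.2 ih)
    have h2 : w (Qf g ((fg g c)^[k] y') ((fg g c)^[k] y)) = 1 := by
      have h3 := Qf_mul (g := g) (c := c) ((fg g c)^[k] y') ((fg g c)^[k] y)
      have h4 := congrArg w h3
      rw [map_mul, ← Function.iterate_succ_apply' (fg g c), ← Function.iterate_succ_apply' (fg g c),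
        hconst, hconst] at h4
      exact mul_right_cancel₀ hw0 (h4.trans (one_mul _).symm)
    have h5 := Qf_sub_le hg (pre_le hg hd hc (pre_it py' k)) (pre_le hg hd hc (pre_it hu k))
      (pre_le hg hd hc (pre_it py k))
    rw [h1, sub_zero, h2] at h5
    have h6 := lip_it hg hd hc py' hu k
    rw [Valuation.map_sub_swap w y' u] at h6
    exact absurd (h5.trans h6) (not_le.2 huy)

/-- points of a tail with different classes modulo the length of the cycle are at distance one -/
lemma tail_one (hg : IG w g) (hd : 2 ≤ g.natDegree) (hc : w c ≤ 1) {u : L} {t n δ : ℕ}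
    (hn : 0 < n) (hper : Function.minimalPeriod (fg g c) ((fg g c)^[t] u) = n)
    (hu : ¬ u ∈ Function.periodicPts (fg g c)) (hδ : ¬ n ∣ δ) :
    w (u - (fg g c)^[δ] u) = 1 := by
  have hfix : (fg g c)^[n] ((fg g c)^[t] u) = (fg g c)^[t] u := by
    rw [← hper]
    exact Function.iterate_minimalPeriod
  have pu : Pre g c u := pre_of_it t (pre_of_periodic hn hfix)
  have hle : w (u - (fg g c)^[δ] u) ≤ 1 :=
    (Valuation.map_sub w _ _).trans (max_le (pre_le hg hd hc pu) (pre_le hg hd hc (pre_it pu δ)))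
  refine le_antisymm hle ?_
  by_contra hlt
  push Not at hlt
  have hδ0 : 0 < δ := by
    rcases Nat.eq_zero_or_pos δ with h0 | h0
    · exact absurd (h0 ▸ dvd_zero n) hδ
    · exact h0
  -- all `f^(k δ) u` are congruent to `u`
  have hcong : ∀ k, w (u - (fg g c)^[k * δ] u) < 1 := by
    intro k
    induction k with
    | zero => simp
    | succ k ih =>
      have e : u - (fg g c)^[(k + 1) * δ] u = (u - (fg g c)^[k * δ] u) +
          ((fg g c)^[k * δ] u - (fg g c)^[k * δ] ((fg g c)^[δ] u)) := by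
        rw [← Function.iterate_add_apply, Nat.succ_mul]
        ring
      rw [e]
      refine Valuation.map_add_lt w ih ?_
      exact (lip_it hg hd hc pu (pre_it pu δ) _).trans_lt hlt
  -- the periodic point `y`
  obtain ⟨K, hK⟩ : ∃ K, K = n * t := ⟨_, rfl⟩
  set y := (fg g c)^[K * δ] u with hy
  have hKt : t ≤ K * δ := by
    rw [hK]
    calc t = 1 * t * 1 := by ring
      _ ≤ n * t * δ := Nat.mul_le_mul (Nat.mul_le_mul hn le_rfl) hδ0
  obtain ⟨s, hs⟩ := Nat.exists_eq_add_of_le hKt
  have hy2 : y = (fg g c)^[s] ((fg g c)^[t] u) := by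
    rw [hy, hs, add_comm t s, Function.iterate_add_apply]
  have hyn : (fg g c)^[n] y = y := by
    rw [hy2, ← Function.iterate_add_apply, add_comm n s, Function.iterate_add_apply, hfix]
  have hymin : Function.minimalPeriod (fg g c) y = n := by
    rw [hy2, ← hper]
    exact Function.minimalPeriod_apply_iterate
      (Function.mk_mem_periodicPts hn hfix) s
  have hye : (fg g c)^[K * δ] y = y := by
    have : K * δ = (t * δ) * n := by rw [hK]; ring
    rw [this]
    exact Function.IsPeriodicPt.const_mul hyn _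
  have hy' : (fg g c)^[n] ((fg g c)^[δ] y) = (fg g c)^[δ] y := by
    rw [← Function.iterate_add_apply, add_comm n δ, Function.iterate_add_apply, hyn]
  have hyne : y ≠ (fg g c)^[δ] y := by
    intro h
    have h1 : Function.IsPeriodicPt (fg g c) δ y := h.symm
    rw [Function.isPeriodicPt_iff_minimalPeriod_dvd, hymin] at h1
    exact hδ h1
  have huy : u ≠ y := by
    intro h
    exact hu ⟨n, hn, by
      change (fg g c)^[n] u = u
      rw [h]
      exact hyn⟩
  have hclose : w (u - (fg g c)^[δ] y) < 1 := by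
    have h1 := hcong (K + 1)
    have e : (fg g c)^[(K + 1) * δ] u = (fg g c)^[δ] y := by
      rw [hy, ← Function.iterate_add_apply]
      congr 1
      ring
    rwa [e] at h1
  have h1 := never_meet hg hd hc pu hn hyn hy' hyne hclose (K * δ) huy
  rw [hye] at h1
  exact h1 rfl

end Loc

/-- the length of a tail of a cycle of length `n ≥ 3` is at most `(B + 1) n` -/
theorem tail_le (hG : HMW.T_KGU) (K : Type) [Field K] [NumberField K] (d ν N : ℕ) (hd : 2 ≤ d)
    (hν : 1 ≤ ν) (hN : N ≠ 0) (hM : 5 ≤ ν * (d - 1)) : ∃ B : ℕ, ∀ (g : K[X]) (c : K),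
    g.natDegree = d → Hyp ν N g c → ∀ (x : K) (n t : ℕ), 3 ≤ n →
    Function.minimalPeriod (fg g c) ((fg g c)^[t + 1] x) = n →
    (fg g c)^[t] x ∉ Function.periodicPts (fg g c) → t + 1 ≤ (B + 1) * n := by
  classical
  obtain ⟨A, hA0, hA⟩ := power K d ν N hd hν hN
  obtain ⟨B, hB⟩ := wb hG K A hA0 (ν * (d - 1)) hM
  refine ⟨B, fun g c hgd h x n t hn hper hnot => ?_⟩
  have hn0 : 0 < n := by omega
  have hfix : (fg g c)^[n] ((fg g c)^[t + 1] x) = (fg g c)^[t + 1] x := by
    rw [← hper]
    exact Function.iterate_minimalPeriod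
  have px : Pre g c x := pre_of_it (t + 1) (pre_of_periodic hn0 hfix)
  set u : ℕ → K := fun i => (fg g c)^[i] x with hu
  have hnp : ∀ i, i ≤ t → u i ∉ Function.periodicPts (fg g c) := by
    intro i hi hmem
    apply hnot
    obtain ⟨k, rfl⟩ := Nat.exists_eq_add_of_le hi
    rw [add_comm i k, Function.iterate_add_apply]
    obtain ⟨m, hm, hmm⟩ := hmem
    refine ⟨m, hm, ?_⟩
    change (fg g c)^[m] ((fg g c)^[k] ((fg g c)^[i] x)) = _
    rw [← Function.iterate_add_apply, add_comm m k, Function.iterate_add_apply]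
    exact congrArg _ hmm
  -- different points
  have hne' : ∀ i j, i ≤ t → i < j → u i ≠ u j := by
    intro i j hi hij he
    apply hnp i hi
    refine ⟨j - i, by omega, ?_⟩
    change (fg g c)^[j - i] ((fg g c)^[i] x) = (fg g c)^[i] x
    rw [← Function.iterate_add_apply, Nat.sub_add_cancel hij.le]
    exact he.symm
  have hne : ∀ i j, i ≤ t → j ≤ t → i ≠ j → u i ≠ u j := by
    intro i j hi hj hij
    rcases lt_or_gt_of_ne hij with h1 | h1
    · exact hne' i j hi h1
    · exact (hne' j i hj h1).symm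
  have hone' : ∀ (v : HeightOneSpectrum (𝓞 K)), (N : 𝓞 K) ∉ v.asIdeal →
      v.valuation K c ≤ 1 → ∀ i j, i ≤ t → i < j → ¬ n ∣ (j - i) →
      v.valuation K (u i - u j) = 1 := by
    intro v hv hc i j hi hij hnd
    have e : u j = (fg g c)^[j - i] (u i) := by
      simp only [hu]
      rw [← Function.iterate_add_apply, Nat.sub_add_cancel hij.le]
    rw [e]
    refine tail_one (h.ig v hv) (by omega) hc (t := t + 1 - i) hn0 ?_ (hnp i hi) hnd
    simp only [hu]
    rw [← Function.iterate_add_apply, show t + 1 - i + i = t + 1 by omega]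
    exact hper
  have hone : ∀ (v : HeightOneSpectrum (𝓞 K)), (N : 𝓞 K) ∉ v.asIdeal →
      v.valuation K c ≤ 1 → ∀ i j, i ≤ t → j ≤ t → i % n ≠ j % n →
      v.valuation K (u i - u j) = 1 := by
    intro v hv hc i j hi hj hij
    have key : ∀ a b : ℕ, a < b → a % n ≠ b % n → ¬ n ∣ (b - a) := by
      intro a b hab hmod hdv
      exact hmod ((Nat.modEq_iff_dvd' hab.le).2 hdv)
    rcases lt_trichotomy i j with h1 | h1 | h1
    · exact hone' v hv hc i j hi h1 (key i j h1 hij)
    · exact absurd (by rw [h1]) hij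
    · rw [Valuation.map_sub_swap]
      exact hone' v hv hc j i hj h1 (key j i h1 hij.symm)
  have hpow : ∀ i j i' j' : ℕ, i ≤ t → j ≤ t → i' ≤ t → j' ≤ t → i % n ≠ j % n →
      i' % n ≠ j' % n → ∃ a ∈ A, ∃ z : K, z ≠ 0 ∧
      u i - u j = a * z ^ (ν * (d - 1)) * (u i' - u j') := by
    intro i j i' j' hi hj hi' hj' hij hij'
    refine hA g c hgd h _ _ _ _ (pre_it px i) (pre_it px j) (pre_it px i') (pre_it px j')
      (hne i j hi hj fun he => hij (by rw [he])) (hne i' j' hi' hj' fun he => hij' (by rw [he]))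
      fun v hv hc => ?_
    rw [hone v hv hc i j hi hj hij, hone v hv hc i' j' hi' hj' hij']
  -- the two sets
  obtain ⟨s, hs⟩ : ∃ s, s = (t + 1) / n := ⟨_, rfl⟩
  have hsn : n * s ≤ t + 1 := by rw [hs]; exact Nat.mul_div_le _ _
  have hidx : ∀ a r, a < s → r < 3 → n * a + r ≤ t := by
    intro a r ha hr
    have h1 : n * (a + 1) ≤ n * s := Nat.mul_le_mul_left _ ha
    have h2 : n * (a + 1) = n * a + n := by ring
    omega
  have hmod : ∀ a r, r < 3 → (n * a + r) % n = r := by
    intro a r hr
    rw [Nat.mul_add_mod, Nat.mod_eq_of_lt (by omega)]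
  have hcard : ∀ r, r = 1 ∨ r = 2 → ((Finset.range s).image fun a =>
      u 0 - u (n * a + r)).card = s := by
    intro r hr
    rw [Finset.card_image_of_injOn, Finset.card_range]
    intro a ha a' ha' he
    rw [Finset.mem_coe, Finset.mem_range] at ha ha'
    have i1 := hidx a r ha (by omega)
    have i2 := hidx a' r ha' (by omega)
    by_contra hcon
    refine hne _ _ i1 i2 ?_ (sub_right_injective he)
    intro he2
    exact hcon (Nat.eq_of_mul_eq_mul_left hn0 (by omega : n * a = n * a'))
  have hnz : ∀ r, r = 1 ∨ r = 2 → ∀ p ∈ (Finset.range s).image fun a =>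
      u 0 - u (n * a + r), p ≠ 0 := by
    intro r hr p hp
    obtain ⟨a, ha, rfl⟩ := Finset.mem_image.1 hp
    rw [Finset.mem_range] at ha
    exact sub_ne_zero.2 (hne 0 _ (Nat.zero_le _) (hidx a r ha (by omega)) (by omega))
  have hfin := hB ((Finset.range s).image fun a => u 0 - u (n * a + 1))
    ((Finset.range s).image fun a => u 0 - u (n * a + 2)) (hnz 1 (Or.inl rfl))
    (hnz 2 (Or.inr rfl)) (by
    intro p hp q hq
    obtain ⟨a, ha, rfl⟩ := Finset.mem_image.1 hp
    obtain ⟨a', ha', rfl⟩ := Finset.mem_image.1 hq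
    rw [Finset.mem_range] at ha ha'
    have i1 := hidx a 1 ha (by norm_num)
    have i2 := hidx a' 2 ha' (by norm_num)
    have m1 := hmod a 1 (by norm_num)
    have m2 := hmod a' 2 (by norm_num)
    have m0 : 0 % n = 0 := Nat.zero_mod n
    have hne2 : u 0 - u (n * a' + 2) ≠ 0 :=
      sub_ne_zero.2 (hne 0 _ (Nat.zero_le _) i2 (by omega))
    refine ⟨?_, ?_⟩
    · obtain ⟨α, hα, z, -, he⟩ := hpow 0 (n * a + 1) 0 (n * a' + 2) (Nat.zero_le _) i1
        (Nat.zero_le _) i2 (by omega) (by omega)
      exact ⟨α, hα, z, by rw [he, mul_div_cancel_right₀ _ hne2]⟩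
    · obtain ⟨α, hα, z, -, he⟩ := hpow (n * a + 1) (n * a' + 2) 0 (n * a' + 2) i1 i2
        (Nat.zero_le _) i2 (by omega) (by omega)
      refine ⟨α, hα, z, ?_⟩
      rw [eq_comm, ← mul_div_cancel_right₀ (α * z ^ (ν * (d - 1))) hne2, ← he]
      field_simp
      ring)
  rw [hcard 1 (Or.inl rfl), hcard 2 (Or.inr rfl), or_self] at hfin
  have h1 : t + 1 < n * (s + 1) := by
    rw [hs]
    exact Nat.lt_mul_div_succ _ hn0
  calc t + 1 ≤ n * (s + 1) := h1.le
    _ ≤ n * (B + 1) := Nat.mul_le_mul_left _ (by omega)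
    _ = (B + 1) * n := mul_comm _ _

end Pool.Agent.PDP
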