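import Pool.Agent.PDP.TwoPow
import Pool.Agent.PDP.Tail

set_option autoImplicit false

/-!
# PDP: counting the points with bounded tail and bounded cycle
-/

open Polynomial NumberField IsDedekindDomain
open scoped WithZero Nat

noncomputable section

namespace Pool.Agent.PDP

/-- few points satisfy `f^[t + L] x = f^[t] x` -/
lemma count_le {K : Type} [Field K] {d : ℕ} (hd : 2 ≤ d) {g : K[X]} {c : K}
    (hgd : g.natDegree = d) (t L : ℕ) (hL : 0 < L) (S : Set K)
    (hS : ∀ x ∈ S, (fg g c)^[t + L] x = (fg g c)^[t] x) :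
    S.encard ≤ ((d ^ (t + L) : ℕ) : ℕ∞) := by
  classical
  set F : K[X] := g + C c with hF
  have hFd : F.natDegree = d := by rw [hF, natDegree_add_C, hgd]
  have hev : ∀ (k : ℕ) (x : K), (F.comp^[k] X).eval x = (fg g c)^[k] x := by
    intro k x
    rw [iterate_comp_eval, eval_X]
    congr 2
    funext y
    simp only [hF, eval_add, eval_C, fg]
  have hdeg : ∀ k : ℕ, (F.comp^[k] X).natDegree = d ^ k := by
    intro k
    rw [natDegree_iterate_comp, hFd, natDegree_X, mul_one]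
  have hlt : d ^ t < d ^ (t + L) := Nat.pow_lt_pow_right (by omega) (by omega)
  set P : K[X] := F.comp^[t + L] X - F.comp^[t] X with hP
  have hPd : P.natDegree = d ^ (t + L) := by
    rw [hP, natDegree_sub_eq_left_of_natDegree_lt, hdeg]
    rw [hdeg, hdeg]
    exact hlt
  have hP0 : P ≠ 0 := by
    intro h0
    rw [h0, natDegree_zero] at hPd
    have : 0 < d ^ (t + L) := pow_pos (by omega) _
    omega
  have hsub : S ⊆ ((P.roots.toFinset : Finset K) : Set K) := by
    intro x hx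
    rw [Finset.mem_coe, Multiset.mem_toFinset, mem_roots hP0, IsRoot.def, hP, eval_sub, hev, hev,
      hS x hx, sub_self]
  calc S.encard ≤ ((P.roots.toFinset : Finset K) : Set K).encard := Set.encard_le_encard hsub
    _ = (P.roots.toFinset.card : ℕ∞) := Set.encard_coe_eq_coe_finsetCard _
    _ ≤ ((d ^ (t + L) : ℕ) : ℕ∞) := by
      refine Nat.cast_le.2 ?_
      calc P.roots.toFinset.card ≤ Multiset.card P.roots := Multiset.toFinset_card_le _
        _ ≤ P.natDegree := card_roots' P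
        _ = d ^ (t + L) := hPd

/-- from a short tail and a period dividing `L` -/
lemma iter_eq {α : Type*} {f : α → α} {x : α} {t n L t0 : ℕ} (h : f^[n] (f^[t] x) = f^[t] x)
    (hn : n ∣ L) (ht : t ≤ t0) : f^[t0 + L] x = f^[t0] x := by
  obtain ⟨s, rfl⟩ := Nat.exists_eq_add_of_le ht
  obtain ⟨m, rfl⟩ := hn
  have h1 : f^[n * m] (f^[t] x) = f^[t] x := by
    have h2 : Function.IsPeriodicPt f n (f^[t] x) := h
    exact h2.mul_const m
  rw [show t + s + n * m = s + (n * m + t) by ring, Function.iterate_add_apply,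
    Function.iterate_add_apply, h1, ← Function.iterate_add_apply, add_comm s t]

/-- a bound for the lengths and for the tails bounds the number of points -/
lemma few_points {K : Type} [Field K] {d : ℕ} (hd : 2 ≤ d) {g : K[X]} {c : K}
    (hgd : g.natDegree = d) (L t0 : ℕ) (hL : 0 < L) (S : Set K)
    (hS : ∀ x ∈ S, ∃ k : ℕ, 0 < Function.minimalPeriod (fg g c) ((fg g c)^[k] x) ∧
      Function.minimalPeriod (fg g c) ((fg g c)^[k] x) ∣ L ∧
      ∀ t : ℕ, (fg g c)^[t] x ∉ Function.periodicPts (fg g c) →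
        (fg g c)^[t + 1] x ∈ Function.periodicPts (fg g c) →
        Function.minimalPeriod (fg g c) ((fg g c)^[t + 1] x) =
          Function.minimalPeriod (fg g c) ((fg g c)^[k] x) → t + 1 ≤ t0) :
    S.encard ≤ ((d ^ (t0 + L) : ℕ) : ℕ∞) := by
  classical
  refine count_le (c := c) hd hgd t0 L hL S fun x hx => ?_
  obtain ⟨k, h0, h1, h2⟩ := hS x hx
  have hk : (fg g c)^[k] x ∈ Function.periodicPts (fg g c) :=
    Function.minimalPeriod_pos_iff_mem_periodicPts.1 h0
  have hex : ∃ k, (fg g c)^[k] x ∈ Function.periodicPts (fg g c) := ⟨k, hk⟩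
  obtain ⟨t, ht, hmin⟩ : ∃ t, (fg g c)^[t] x ∈ Function.periodicPts (fg g c) ∧
      ∀ s < t, (fg g c)^[s] x ∉ Function.periodicPts (fg g c) :=
    ⟨Nat.find hex, Nat.find_spec hex, fun s hs => Nat.find_min hex hs⟩
  have htk : t ≤ k := by
    by_contra hcon
    exact hmin k (by omega) hk
  have hper : Function.minimalPeriod (fg g c) ((fg g c)^[t] x) =
      Function.minimalPeriod (fg g c) ((fg g c)^[k] x) := by
    obtain ⟨s, rfl⟩ := Nat.exists_eq_add_of_le htk
    rw [add_comm t s, Function.iterate_add_apply]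
    exact (Function.minimalPeriod_apply_iterate ht s).symm
  have htt : t ≤ t0 := by
    rcases Nat.eq_zero_or_pos t with h | h
    · omega
    · obtain ⟨s, rfl⟩ : ∃ s, t = s + 1 := ⟨t - 1, by omega⟩
      exact h2 s (hmin s (by omega)) ht hper
  refine iter_eq (n := Function.minimalPeriod (fg g c) ((fg g c)^[t] x)) ?_ ?_ htt
  · exact Function.iterate_minimalPeriod
  · rw [hper]; exact h1

/-- T1 and T2 -/
theorem main12 (hG : HMW.T_KGU) (K : Type) [Field K] [NumberField K] (d ν N : ℕ) (hd : 2 ≤ d)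
    (hν : 1 ≤ ν) (hN : N ≠ 0) (hM : 5 ≤ ν * (d - 1)) : ∃ B : ℕ, ∀ (g : K[X]) (c : K),
    g.natDegree = d → Hyp ν N g c →
    (∀ x ∈ Function.periodicPts (fg g c), ∀ q : ℕ, Odd q →
      q ∣ Function.minimalPeriod (fg g c) x → q ≤ B) ∧
    ∀ r : ℕ, {x : K | ∃ k n : ℕ,
      Function.minimalPeriod (fg g c) ((fg g c)^[k] x) = n ∧ 0 < n ∧ (k = 0 ∨ 3 ≤ n) ∧
      (¬ 2 ^ r ∣ n ∨ 2 ∣ ν * (d - 1))}.encard ≤ ((B ^ 2 ^ r : ℕ) : ℕ∞) := by
  classical
  obtain ⟨B₁, hB₁⟩ := odd_pow hG K d ν N hd hν hN hM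
  obtain ⟨B₂, hB₂⟩ : ∃ B₂ : ℕ, 2 ∣ ν * (d - 1) → ∀ (g : K[X]) (c : K),
      g.natDegree = d → Hyp ν N g c → ∀ (x : K) (n : ℕ), 0 < n →
      Function.minimalPeriod (fg g c) x = n → ∀ k : ℕ, 2 ^ k ∣ n → 2 ^ k ≤ B₂ := by
    by_cases h2 : 2 ∣ ν * (d - 1)
    · obtain ⟨B₂, hB₂⟩ := two_pow hG K d ν N hd hν hN hM h2
      exact ⟨B₂, fun _ => hB₂⟩
    · exact ⟨0, fun h => absurd h h2⟩
  obtain ⟨B₃, hB₃⟩ := tail_le hG K d ν N hd hν hN hM
  set L' : ℕ := B₁ ! * B₂ ! with hL'
  have hL'0 : 0 < L' := Nat.mul_pos (Nat.factorial_pos _) (Nat.factorial_pos _)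
  refine ⟨B₁ ! + d ^ ((B₃ + 2) * L'), fun g c hgd h => ⟨fun x hx q hq hqn => ?_, fun r => ?_⟩⟩
  · have hn0 : 0 < Function.minimalPeriod (fg g c) x :=
      Function.minimalPeriod_pos_iff_mem_periodicPts.2 hx
    have hdv : q ∣ B₁ ! := by
      rw [Nat.dvd_iff_prime_pow_dvd_dvd]
      intro p j hp hpj
      rcases Nat.eq_zero_or_pos j with rfl | hj
      · rw [pow_zero]
        exact one_dvd _
      have hp2 : p ≠ 2 := by
        rintro rfl
        have h1 : 2 ∣ q := (dvd_pow_self 2 hj.ne').trans hpj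
        rw [Nat.odd_iff] at hq
        omega
      exact Nat.dvd_factorial (pow_pos hp.pos _)
        (hB₁ g c hgd h x _ hn0 rfl p j hp hp2 (hpj.trans hqn))
    exact (Nat.le_of_dvd (Nat.factorial_pos _) hdv).trans (Nat.le_add_right _ _)
  · set L : ℕ := 2 ^ r * L' with hL
    have hL0 : 0 < L := Nat.mul_pos (pow_pos (by norm_num) _) hL'0
    have hpow : ((d ^ ((B₃ + 1) * L + L) : ℕ) : ℕ∞) ≤
        (((B₁ ! + d ^ ((B₃ + 2) * L')) ^ 2 ^ r : ℕ) : ℕ∞) := by
      refine Nat.cast_le.2 ?_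
      have e : (B₃ + 1) * L + L = (B₃ + 2) * L' * 2 ^ r := by rw [hL]; ring
      rw [e, pow_mul]
      exact Nat.pow_le_pow_left (Nat.le_add_left _ _) _
    refine le_trans ?_ hpow
    refine few_points (c := c) hd hgd L ((B₃ + 1) * L) hL0 _ ?_
    rintro x ⟨k, n, hn, hn0, hk, hr⟩
    have hdv : n ∣ L := by
      rw [Nat.dvd_iff_prime_pow_dvd_dvd]
      intro p j hp hpj
      by_cases hp2 : p = 2
      · subst hp2
        rcases hr with hr | hr
        · have hjr : j ≤ r := by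
            by_contra hcon
            exact hr ((Nat.pow_dvd_pow 2 (by omega)).trans hpj)
          exact (Nat.pow_dvd_pow 2 hjr).trans (Dvd.intro _ rfl)
        · have h1 := hB₂ hr g c hgd h ((fg g c)^[k] x) n hn0 hn j hpj
          have h2 : 2 ^ j ∣ B₂ ! := Nat.dvd_factorial (pow_pos (by norm_num) _) h1
          exact h2.trans ((Dvd.intro_left _ rfl).trans (Dvd.intro_left _ rfl))
      · have h1 := hB₁ g c hgd h ((fg g c)^[k] x) n hn0 hn p j hp hp2 hpj
        have h2 : p ^ j ∣ B₁ ! := Nat.dvd_factorial (pow_pos hp.pos _) h1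
        exact h2.trans ((Dvd.intro _ rfl).trans (Dvd.intro_left _ rfl))
    rcases hk with rfl | hk
    · refine ⟨0, by rw [hn]; exact hn0, by rw [hn]; exact hdv, fun t ht => ?_⟩
      exfalso
      apply ht
      have hx : x ∈ Function.periodicPts (fg g c) :=
        Function.minimalPeriod_pos_iff_mem_periodicPts.1 (by
          have : Function.minimalPeriod (fg g c) x = n := hn
          rw [this]; exact hn0)
      obtain ⟨m, hm, hmm⟩ := hx
      refine ⟨m, hm, ?_⟩
      change (fg g c)^[m] ((fg g c)^[t] x) = _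
      rw [← Function.iterate_add_apply, add_comm m t, Function.iterate_add_apply]
      exact congrArg _ hmm
    · refine ⟨k, by rw [hn]; exact hn0, by rw [hn]; exact hdv, fun t ht _ hper => ?_⟩
      rw [hn] at hper
      calc t + 1 ≤ (B₃ + 1) * n := hB₃ g c hgd h x n t hk hper ht
        _ ≤ (B₃ + 1) * L := Nat.mul_le_mul_left _ (Nat.le_of_dvd hL0 hdv)

end Pool.Agent.PDP
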