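import Pool.Agent.HMW.KCV6

set_option autoImplicit false

/-!
# PDP: few numbers in a window of heights, for two kinds of sets
-/

open Polynomial Height Height.AdmissibleAbsValues NumberField

noncomputable section

namespace Pool.Agent.PDP

/-- `l` and `1 - l` are `M`-th powers up to factors from `A` -/
def Sg (K : Type) [Field K] (A : Finset K) (M : ℕ) : Set K :=
  {l | (∃ a ∈ A, ∃ z : K, l = a * z ^ M) ∧ ∃ a ∈ A, ∃ z : K, 1 - l = a * z ^ M}

/-- `l` is an `M`-th power and `l - 1` a square up to factors from `A` -/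
def Sq (K : Type) [Field K] (A : Finset K) (M : ℕ) : Set K :=
  {l | (∃ a ∈ A, ∃ z : K, l = a * z ^ M) ∧ ∃ a ∈ A, ∃ z : K, l - 1 = a * z ^ 2}

/-- larger windows -/
lemma cover {F : Type} (y : F → ℝ) (G : F → Prop) (C : ℝ) (B : ℕ) (hC : 0 ≤ C)
    (hy : ∀ p, 0 ≤ y p)
    (hB : ∀ (U : ℝ) (t : Finset F), (∀ p ∈ t, G p ∧ U ≤ y p ∧ y p ≤ 8 / 5 * U + C) →
      t.card ≤ B) (T : ℝ) (s : Finset F)
    (hs : ∀ p ∈ s, G p ∧ T ≤ y p ∧ y p ≤ 3 * T + C) : s.card ≤ 3 * B := by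
  classical
  rcases lt_or_ge T 0 with hT | hT
  · have h1 := hB 0 s fun p hp => ⟨(hs p hp).1, hy p, by linarith [(hs p hp).2.2]⟩
    omega
  · have e1 := Finset.card_filter_add_card_filter_not (s := s)
      (fun p => y p ≤ 8 / 5 * T + C)
    have e2 := Finset.card_filter_add_card_filter_not
      (s := s.filter fun p => ¬ y p ≤ 8 / 5 * T + C)
      (fun p => y p ≤ 8 / 5 * (8 / 5 * T) + C)
    have f1 := hB T (s.filter fun p => y p ≤ 8 / 5 * T + C) fun p hp => by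
      obtain ⟨h1, h2⟩ := Finset.mem_filter.1 hp
      exact ⟨(hs p h1).1, (hs p h1).2.1, h2⟩
    have f2 := hB (8 / 5 * T) ((s.filter fun p => ¬ y p ≤ 8 / 5 * T + C).filter
      fun p => y p ≤ 8 / 5 * (8 / 5 * T) + C) fun p hp => by
      obtain ⟨h0, h3⟩ := Finset.mem_filter.1 hp
      obtain ⟨h1, h2⟩ := Finset.mem_filter.1 h0
      push Not at h2
      exact ⟨(hs p h1).1, by linarith, h3⟩
    have f3 := hB (8 / 5 * (8 / 5 * T)) ((s.filter fun p => ¬ y p ≤ 8 / 5 * T + C).filter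
      fun p => ¬ y p ≤ 8 / 5 * (8 / 5 * T) + C) fun p hp => by
      obtain ⟨h0, h3⟩ := Finset.mem_filter.1 hp
      obtain ⟨h1, h2⟩ := Finset.mem_filter.1 h0
      push Not at h2 h3
      exact ⟨(hs p h1).1, by linarith, by linarith [(hs p h1).2.2]⟩
    omega

/-- points on one curve `κ y^2 = t^M - b` in a window -/
lemma crv (hG : HMW.T_KGU) {K : Type} [Field K] [NumberField K] {M : ℕ} (hM : 5 ≤ M) {b κ : K}
    (hκ : κ ≠ 0) {θ : Fin M → K} (hθ : Function.Injective θ)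
    (hθb : ∀ t : K, t ^ M - b = ∏ i, (t - θ i)) (C : ℝ) (hC : 0 ≤ C) :
    ∃ B : ℕ, ∀ (T : ℝ) (s : Finset (K × K)), (∀ P ∈ s, κ * P.2 ^ 2 = P.1 ^ M - b ∧
      T ≤ logHeight₁ P.1 ∧ logHeight₁ P.1 ≤ 3 * T + C) → s.card ≤ B := by
  obtain ⟨B, hB⟩ := hG K M hM θ κ hθ hκ C
  refine ⟨3 * B, fun T s hs => ?_⟩
  refine cover (fun P : K × K => logHeight₁ P.1) (fun P => κ * P.2 ^ 2 = P.1 ^ M - b) C B hC
    (fun P => zero_le_logHeight₁ _) (fun U t ht => hB U t fun P hP => ?_) T s hs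
  obtain ⟨h1, h2, h3⟩ := ht P hP
  exact ⟨by rw [h1, hθb], h2, h3⟩

/-- reduction of a set `S` to finitely many curves `κ y^2 = t^M - b` -/
lemma red (hG : HMW.T_KGU) (K : Type) [Field K] [NumberField K] (I : Finset (K × K))
    (hI : ∀ p ∈ I, p.1 ≠ 0 ∧ p.2 ≠ 0) (M : ℕ) (hM : 5 ≤ M) (S : Set K) (R : K × K → K × K → K)
    (ρ : ℝ) (hρ : 0 ≤ ρ) (hρM : ρ ≤ M)
    (hS : ∀ l ∈ S, ∃ p ∈ I, ∃ P : K × K, p.2 * P.2 ^ 2 = P.1 ^ M - p.1 ∧ R p P = l)
    (hh : ∀ (K' : Type) [Field K'] [NumberField K'] [Algebra K K'], ∃ C : ℝ, ∀ p ∈ I, ∀ P : K × K,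
      p.2 * P.2 ^ 2 = P.1 ^ M - p.1 →
      |M * logHeight₁ (algebraMap K K' P.1) - ρ * logHeight₁ (algebraMap K K' (R p P))| ≤ C) :
    ∃ (K' : Type) (_ : Field K') (_ : NumberField K') (_ : Algebra K K'),
      ∀ C₀ : ℝ, ∃ B : ℕ, ∀ (T : ℝ) (s : Finset K), (∀ l ∈ s, l ∈ S ∧
        T ≤ logHeight₁ (algebraMap K K' l) ∧ logHeight₁ (algebraMap K K' l) ≤ 3 * T + C₀) →
        s.card ≤ B := by
  classical
  obtain ⟨K', iK, iNK, iA, hK⟩ := HMW.KCV6_.fld K M (by omega) (I.image fun p => p.1)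
  refine ⟨K', iK, iNK, iA, fun C₀ => ?_⟩
  obtain ⟨C, hC⟩ := hh K'
  have hMpos : (0 : ℝ) < M := by exact_mod_cast (by omega : 0 < M)
  have hM1 : (1 : ℝ) ≤ M := by exact_mod_cast (by omega : 1 ≤ M)
  set C₁ : ℝ := |C| with hC₁
  set C₂ : ℝ := 4 * C₁ + |C₀| with hC₂
  have hC1 : 0 ≤ C₁ := abs_nonneg _
  have hC2 : 0 ≤ C₂ := by positivity
  have hex : ∀ p : {p // p ∈ I}, ∃ B : ℕ, ∀ (T : ℝ) (s : Finset (K' × K')),
      (∀ P ∈ s, algebraMap K K' p.1.2 * P.2 ^ 2 = P.1 ^ M - algebraMap K K' p.1.1 ∧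
        T ≤ logHeight₁ P.1 ∧ logHeight₁ P.1 ≤ 3 * T + C₂) → s.card ≤ B := by
    intro p
    obtain ⟨θ, hθ, hθb⟩ := hK p.1.1 (Finset.mem_image_of_mem _ p.2) (hI p.1 p.2).1
    exact crv hG hM ((_root_.map_ne_zero _).2 (hI p.1 p.2).2) hθ hθb C₂ hC2
  choose B hB using hex
  refine ⟨∑ p : {p // p ∈ I}, B p, fun T s hs => ?_⟩
  choose! p hp P hP using fun l (hl : l ∈ s) => hS l (hs l hl).1
  have hfib : ∀ q : {p // p ∈ I}, (s.filter fun l => p l = q.1).card ≤ B q := by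
    intro q
    have hinj : Set.InjOn (fun l => (algebraMap K K' (P l).1, algebraMap K K' (P l).2))
        (s.filter fun l => p l = q.1) := by
      intro a ha b hb hab
      obtain ⟨ha1, ha2⟩ := Finset.mem_filter.1 (Finset.mem_coe.1 ha)
      obtain ⟨hb1, hb2⟩ := Finset.mem_filter.1 (Finset.mem_coe.1 hb)
      dsimp only at hab
      rw [Prod.mk.injEq] at hab
      have h1 := (algebraMap K K').injective hab.1
      have h2 := (algebraMap K K').injective hab.2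
      rw [← (hP a ha1).2, ← (hP b hb1).2, ha2, hb2, Prod.ext h1 h2]
    rw [← Finset.card_image_of_injOn hinj]
    refine hB q (ρ / M * T - C₁) _ fun Q hQ => ?_
    obtain ⟨l, hl, rfl⟩ := Finset.mem_image.1 hQ
    obtain ⟨hl1, hl2⟩ := Finset.mem_filter.1 hl
    obtain ⟨g1, g2⟩ := hP l hl1
    rw [hl2] at g1 g2
    have g3 := hC q.1 q.2 (P l) g1
    rw [g2] at g3
    obtain ⟨-, s2, s3⟩ := hs l hl1
    have g4 := (abs_le.1 (g3.trans (le_abs_self C)))
    have g5 : |C| / M ≤ C₁ := div_le_self hC1 hM1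
    have g6 : logHeight₁ (algebraMap K K' (P l).1) ≤
        ρ / M * logHeight₁ (algebraMap K K' l) + C₁ := by
      have : M * logHeight₁ (algebraMap K K' (P l).1) ≤
        ρ * logHeight₁ (algebraMap K K' l) + |C| := by linarith [g4.2]
      have h7 : logHeight₁ (algebraMap K K' (P l).1) ≤
          (ρ * logHeight₁ (algebraMap K K' l) + |C|) / M := by
        rw [le_div_iff₀ hMpos]
        linarith
      refine h7.trans ?_
      rw [add_div, mul_div_right_comm]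
      linarith
    have g7 : ρ / M * logHeight₁ (algebraMap K K' l) - C₁ ≤
        logHeight₁ (algebraMap K K' (P l).1) := by
      have h7 : (ρ * logHeight₁ (algebraMap K K' l) - |C|) / M ≤
          logHeight₁ (algebraMap K K' (P l).1) := by
        rw [div_le_iff₀ hMpos]
        linarith [g4.1]
      refine le_trans ?_ h7
      rw [sub_div, mul_div_right_comm]
      linarith
    have hr0 : 0 ≤ ρ / M := div_nonneg hρ hMpos.le
    have hr1 : ρ / M ≤ 1 := (div_le_one hMpos).2 hρM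
    refine ⟨?_, ?_, ?_⟩
    · have := congrArg (algebraMap K K') g1
      rw [map_mul, map_pow, map_sub, map_pow] at this
      exact this
    · have := mul_le_mul_of_nonneg_left s2 hr0
      dsimp only
      linarith
    · have h8 := mul_le_mul_of_nonneg_left s3 hr0
      have h9 : ρ / M * C₀ ≤ |C₀| := by
        have e1 : ρ / M * C₀ ≤ ρ / M * |C₀| := mul_le_mul_of_nonneg_left (le_abs_self _) hr0
        have e2 : ρ / M * |C₀| ≤ 1 * |C₀| := mul_le_mul_of_nonneg_right hr1 (abs_nonneg _)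
        linarith
      dsimp only
      rw [hC₂]
      nlinarith [h8, h9, g6]
  have hcover : s ⊆ Finset.univ.biUnion fun q : {p // p ∈ I} => s.filter fun l => p l = q.1 := by
    intro l hl
    rw [Finset.mem_biUnion]
    exact ⟨⟨p l, hp l hl⟩, Finset.mem_univ _, Finset.mem_filter.2 ⟨hl, rfl⟩⟩
  exact (Finset.card_le_card hcover).trans
    (Finset.card_biUnion_le.trans (Finset.sum_le_sum fun q _ => hfib q))

/-- windows for `Sg` -/
theorem win (hG : HMW.T_KGU) (K : Type) [Field K] [NumberField K] (A : Finset K)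
    (hA : ∀ a ∈ A, a ≠ 0) (M : ℕ) (hM : 5 ≤ M) :
    ∃ (K' : Type) (_ : Field K') (_ : NumberField K') (_ : Algebra K K'),
      ∀ C₀ : ℝ, ∃ B : ℕ, ∀ (T : ℝ) (s : Finset K), (∀ l ∈ s, l ∈ Sg K A M ∧
        T ≤ logHeight₁ (algebraMap K K' l) ∧ logHeight₁ (algebraMap K K' l) ≤ 3 * T + C₀) →
        s.card ≤ B := by
  classical
  refine red hG K ((A ×ˢ A).image fun p => ((4 * p.1 * p.2)⁻¹, -(4 * p.1 * p.2)⁻¹)) ?_ M hM
    (Sg K A M) (fun _ P => (1 - P.2) / 2) 2 (by norm_num)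
    (by have : (5 : ℝ) ≤ M := by exact_mod_cast hM
        linarith) ?_ ?_
  · intro p hp
    obtain ⟨q, hq, rfl⟩ := Finset.mem_image.1 hp
    obtain ⟨h1, h2⟩ := Finset.mem_product.1 hq
    have h3 : 4 * q.1 * q.2 ≠ 0 := mul_ne_zero (mul_ne_zero (by norm_num) (hA _ h1)) (hA _ h2)
    exact ⟨inv_ne_zero h3, neg_ne_zero.2 (inv_ne_zero h3)⟩
  · rintro l ⟨⟨a, ha, z, hz⟩, b, hb, y, hy⟩
    refine ⟨((4 * a * b)⁻¹, -(4 * a * b)⁻¹), Finset.mem_image.2 ⟨(a, b),
      Finset.mem_product.2 ⟨ha, hb⟩, rfl⟩, (z * y, 1 - 2 * l), ?_, ?_⟩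
    · have h1 := hA a ha
      have h2 := hA b hb
      dsimp only
      rw [mul_pow]
      have h3 : z ^ M = l / a := by rw [hz]; field_simp
      have h4 : y ^ M = (1 - l) / b := by rw [hy]; field_simp
      rw [h3, h4]
      field_simp
      ring
    · dsimp only
      ring
  · intro K' _ _ _
    obtain ⟨D, hD⟩ : ∃ D : (K × K) → ℝ, D = fun p => totalWeight K' * Real.log 2 +
        logHeight₁ (algebraMap K K' p.1) + logHeight₁ (algebraMap K K' p.2) +
        2 * (totalWeight K' * Real.log 2 + logHeight₁ (1 : K') + logHeight₁ (-2 : K')) :=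
      ⟨_, rfl⟩
    refine ⟨∑ p ∈ (A ×ˢ A).image fun p => ((4 * p.1 * p.2)⁻¹, -(4 * p.1 * p.2)⁻¹), D p,
      fun p hp P hP => ?_⟩
    have hD0 : ∀ q, 0 ≤ D q := by
      intro q
      rw [hD]
      have g1 : (0 : ℝ) ≤ totalWeight K' * Real.log 2 :=
        mul_nonneg (Nat.cast_nonneg _) (Real.log_nonneg (by norm_num))
      have g2 := zero_le_logHeight₁ (algebraMap K K' q.1)
      have g3 := zero_le_logHeight₁ (algebraMap K K' q.2)
      have g4 := zero_le_logHeight₁ (1 : K')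
      have g5 := zero_le_logHeight₁ (-2 : K')
      dsimp only
      linarith
    refine le_trans ?_ (Finset.single_le_sum (fun q _ => hD0 q) hp)
    have hp2 : p.2 ≠ 0 := by
      obtain ⟨q, hq, rfl⟩ := Finset.mem_image.1 hp
      obtain ⟨h1, h2⟩ := Finset.mem_product.1 hq
      have h3 : 4 * q.1 * q.2 ≠ 0 := mul_ne_zero (mul_ne_zero (by norm_num) (hA _ h1)) (hA _ h2)
      exact neg_ne_zero.2 (inv_ne_zero h3)
    have hPK := congrArg (algebraMap K K') hP
    rw [map_mul, map_pow, map_sub, map_pow] at hPK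
    have h1 := HMW.CURV_.hadd (algebraMap K K' p.2 * (algebraMap K K' P.2) ^ 2)
      (algebraMap K K' p.1)
    rw [hPK, sub_add_cancel, ← hPK] at h1
    have h2 := HMW.CURV_.hmul ((algebraMap K K' P.2) ^ 2) (algebraMap K K' p.2)
      ((_root_.map_ne_zero _).2 hp2)
    rw [logHeight₁_pow] at h1 h2
    set l : K := (1 - P.2) / 2 with hl
    have h3 : algebraMap K K' P.2 = -2 * algebraMap K K' l + 1 := by
      have : P.2 = 1 - 2 * l := by rw [hl]; ring
      rw [this, map_sub, map_mul, map_one, map_ofNat]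
      ring
    have h4 := HMW.CURV_.hadd (-2 * algebraMap K K' l) 1
    have h5 := HMW.CURV_.hmul (algebraMap K K' l) (-2) (by norm_num)
    rw [← h3] at h4
    rw [hD]
    dsimp only
    rw [abs_le] at h1 h2 h4 h5 ⊢
    push_cast at h1 h2 ⊢
    constructor <;> linarith [h1.1, h1.2, h2.1, h2.2, h4.1, h4.2, h5.1, h5.2]

/-- windows for `Sq` -/
theorem win2 (hG : HMW.T_KGU) (K : Type) [Field K] [NumberField K] (A : Finset K)
    (hA : ∀ a ∈ A, a ≠ 0) (M : ℕ) (hM : 5 ≤ M) :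
    ∃ (K' : Type) (_ : Field K') (_ : NumberField K') (_ : Algebra K K'),
      ∀ C₀ : ℝ, ∃ B : ℕ, ∀ (T : ℝ) (s : Finset K), (∀ l ∈ s, l ∈ Sq K A M ∧
        T ≤ logHeight₁ (algebraMap K K' l) ∧ logHeight₁ (algebraMap K K' l) ≤ 3 * T + C₀) →
        s.card ≤ B := by
  classical
  refine red hG K ((A ×ˢ A).image fun p => (p.1⁻¹, p.2 / p.1)) ?_ M hM
    (Sq K A M) (fun p P => p.1⁻¹ * P.1 ^ M) 1 (by norm_num)
    (by have : (5 : ℝ) ≤ M := by exact_mod_cast hM
        linarith) ?_ ?_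
  · intro p hp
    obtain ⟨q, hq, rfl⟩ := Finset.mem_image.1 hp
    obtain ⟨h1, h2⟩ := Finset.mem_product.1 hq
    exact ⟨inv_ne_zero (hA _ h1), div_ne_zero (hA _ h2) (hA _ h1)⟩
  · rintro l ⟨⟨a, ha, z, hz⟩, b, hb, y, hy⟩
    have h1 := hA a ha
    have h2 := hA b hb
    refine ⟨(a⁻¹, b / a), Finset.mem_image.2 ⟨(a, b),
      Finset.mem_product.2 ⟨ha, hb⟩, rfl⟩, (z, y), ?_, ?_⟩
    · dsimp only
      have h3 : z ^ M = l / a := by rw [hz]; field_simp
      have h4 : y ^ 2 = (l - 1) / b := by rw [hy]; field_simp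
      rw [h3, h4]
      field_simp
    · dsimp only
      rw [inv_inv, hz]
  · intro K' _ _ _
    refine ⟨∑ p ∈ (A ×ˢ A).image fun p => (p.1⁻¹, p.2 / p.1), logHeight₁ (algebraMap K K' p.1),
      fun p hp P _ => ?_⟩
    refine le_trans ?_ (Finset.single_le_sum (fun q _ => zero_le_logHeight₁ _) hp)
    have hp1 : p.1 ≠ 0 := by
      obtain ⟨q, hq, rfl⟩ := Finset.mem_image.1 hp
      obtain ⟨h1, h2⟩ := Finset.mem_product.1 hq
      exact inv_ne_zero (hA _ h1)
    have h2 := HMW.CURV_.hmul ((algebraMap K K' P.1) ^ M) (algebraMap K K' p.1⁻¹)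
      ((_root_.map_ne_zero _).2 (inv_ne_zero hp1))
    rw [logHeight₁_pow] at h2
    rw [map_inv₀ _ p.1, logHeight₁_inv] at h2
    rw [one_mul, map_mul, map_pow, map_inv₀, abs_sub_comm]
    exact h2

end Pool.Agent.PDP
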