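import Pool.Agent.PDP.Power
import Pool.Agent.PDP.Window
import Pool.Agent.PDP.Bip

set_option autoImplicit false

/-!
# PDP: prime powers dividing the length of a cycle
-/

open Polynomial Height Height.AdmissibleAbsValues NumberField IsDedekindDomain
open scoped WithZero

noncomputable section

namespace Pool.Agent.PDP

/-- two finite sets with all ratios in `Sg` -/
theorem wb (hG : HMW.T_KGU) (K : Type) [Field K] [NumberField K] (A : Finset K)
    (hA : ∀ a ∈ A, a ≠ 0) (M : ℕ) (hM : 5 ≤ M) : ∃ B : ℕ, ∀ P Q : Finset K,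
    (∀ p ∈ P, p ≠ 0) → (∀ q ∈ Q, q ≠ 0) → (∀ p ∈ P, ∀ q ∈ Q, p / q ∈ Sg K A M) →
    P.card ≤ B ∨ Q.card ≤ B := by
  obtain ⟨K', _, _, _, hK⟩ := win hG K A hA M hM
  obtain ⟨B, hB⟩ := hK 0
  refine ⟨2 * B, fun P Q hP hQ hPQ => ?_⟩
  refine bip K (fun x => logHeight₁ (algebraMap K K' x)) (fun x => zero_le_logHeight₁ _)
    (fun x y => ?_) (fun x => ?_) (Sg K A M) B (fun T s hs => hB T s fun l hl => ?_) P Q hP hQ hPQ
  · rw [map_mul]; exact logHeight₁_mul_le _ _
  · rw [map_inv₀]; exact logHeight₁_inv _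
  · obtain ⟨h1, h2, h3⟩ := hs l hl
    exact ⟨h1, h2, by linarith⟩

/-- two finite sets with all ratios in `Sq` -/
theorem wb2 (hG : HMW.T_KGU) (K : Type) [Field K] [NumberField K] (A : Finset K)
    (hA : ∀ a ∈ A, a ≠ 0) (M : ℕ) (hM : 5 ≤ M) : ∃ B : ℕ, ∀ P Q : Finset K,
    (∀ p ∈ P, p ≠ 0) → (∀ q ∈ Q, q ≠ 0) → (∀ p ∈ P, ∀ q ∈ Q, p / q ∈ Sq K A M) →
    P.card ≤ B ∨ Q.card ≤ B := by
  obtain ⟨K', _, _, _, hK⟩ := win2 hG K A hA M hM
  obtain ⟨B, hB⟩ := hK 0
  refine ⟨2 * B, fun P Q hP hQ hPQ => ?_⟩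
  refine bip K (fun x => logHeight₁ (algebraMap K K' x)) (fun x => zero_le_logHeight₁ _)
    (fun x y => ?_) (fun x => ?_) (Sq K A M) B (fun T s hs => hB T s fun l hl => ?_) P Q hP hQ hPQ
  · rw [map_mul]; exact logHeight₁_mul_le _ _
  · rw [map_inv₀]; exact logHeight₁_inv _
  · obtain ⟨h1, h2, h3⟩ := hs l hl
    exact ⟨h1, h2, by linarith⟩

/-- distances in a cycle -/
lemma cyc_dist {L Γ : Type} [Field L] [LinearOrderedCommGroupWithZero Γ] {w : Valuation L Γ}
    {g : L[X]} {c : L} (hg : IG w g) (hd : 2 ≤ g.natDegree) (hc : w c ≤ 1) {x : L} {n : ℕ}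
    (hn : 0 < n) (hx : (fg g c)^[n] x = x) (i j : ℕ) :
    w ((fg g c)^[i] x - (fg g c)^[j] x) =
      w ((fg g c)^[Nat.gcd (Int.natAbs ((i : ℤ) - j)) n] x - x) := by
  rcases le_total j i with h | h
  · obtain ⟨k, rfl⟩ := Nat.exists_eq_add_of_le h
    have e : Int.natAbs (((j + k : ℕ) : ℤ) - j) = k := by
      push_cast
      rw [add_sub_cancel_left, Int.natAbs_natCast]
    rw [e, cyc_const hg hd hc hn hx j k, cyc_gcd hg hd hc hn hx k]
  · obtain ⟨k, rfl⟩ := Nat.exists_eq_add_of_le h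
    have e : Int.natAbs ((i : ℤ) - ((i + k : ℕ) : ℤ)) = k := by
      push_cast
      rw [sub_add_cancel_left, Int.natAbs_neg, Int.natAbs_natCast]
    rw [e, Valuation.map_sub_swap, cyc_const hg hd hc hn hx i k, cyc_gcd hg hd hc hn hx k]

/-- points of a cycle with different indices are different -/
lemma cyc_ne {K : Type} [Field K] {g : K[X]} {c x : K} {i j : ℕ}
    (hi : i < Function.minimalPeriod (fg g c) x) (hj : j < Function.minimalPeriod (fg g c) x)
    (hij : i ≠ j) : (fg g c)^[i] x ≠ (fg g c)^[j] x := by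
  intro h
  exact hij (Function.iterate_injOn_Iio_minimalPeriod (Set.mem_Iio.2 hi) (Set.mem_Iio.2 hj) h)

/-- differences of points of a cycle with equal greatest common divisors -/
lemma cyc_power {K : Type} [Field K] [NumberField K] {d ν N : ℕ} (hd : 2 ≤ d)
    {A : Finset K}
    (hA : ∀ (g : K[X]) (c : K), g.natDegree = d →
      Hyp ν N g c → ∀ p q p' q' : K, Pre g c p → Pre g c q → Pre g c p' → Pre g c q' →
      p ≠ q → p' ≠ q' →
      (∀ v : HeightOneSpectrum (𝓞 K), (N : 𝓞 K) ∉ v.asIdeal → v.valuation K c ≤ 1 →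
        v.valuation K (p - q) = v.valuation K (p' - q')) →
      ∃ a ∈ A, ∃ z : K, z ≠ 0 ∧ p - q = a * z ^ (ν * (d - 1)) * (p' - q'))
    {g : K[X]} {c : K} (hgd : g.natDegree = d) (h : Hyp ν N g c) {x : K} {n : ℕ} (hn : 0 < n)
    (hx : Function.minimalPeriod (fg g c) x = n) {i j i' j' : ℕ} (hi : i < n) (hj : j < n)
    (hi' : i' < n) (hj' : j' < n) (hij : i ≠ j) (hij' : i' ≠ j')
    (hgcd : Nat.gcd (Int.natAbs ((i : ℤ) - j)) n = Nat.gcd (Int.natAbs ((i' : ℤ) - j')) n) :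
    ∃ a ∈ A, ∃ z : K, z ≠ 0 ∧ (fg g c)^[i] x - (fg g c)^[j] x =
      a * z ^ (ν * (d - 1)) * ((fg g c)^[i'] x - (fg g c)^[j'] x) := by
  have hfix : (fg g c)^[n] x = x := by
    rw [← hx]
    exact Function.iterate_minimalPeriod
  have hp : Pre g c x := pre_of_periodic hn hfix
  refine hA g c hgd h _ _ _ _ (pre_it hp i) (pre_it hp j) (pre_it hp i') (pre_it hp j')
    (cyc_ne (by omega) (by omega) hij) (cyc_ne (by omega) (by omega) hij') fun v hv hc => ?_
  rw [cyc_dist (h.ig v hv) (by omega) hc hn hfix, cyc_dist (h.ig v hv) (by omega) hc hn hfix,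
    hgcd]

/-- greatest common divisors for multiples of `m` -/
lemma gcd_mul_aux {q m i j r : ℕ} (h : Nat.gcd (Int.natAbs ((i : ℤ) - j)) q = r) :
    Nat.gcd (Int.natAbs (((i * m : ℕ) : ℤ) - ((j * m : ℕ) : ℤ))) (q * m) = r * m := by
  have e : Int.natAbs (((i * m : ℕ) : ℤ) - ((j * m : ℕ) : ℤ)) =
      Int.natAbs ((i : ℤ) - j) * m := by
    rw [Nat.cast_mul, Nat.cast_mul, ← sub_mul, Int.natAbs_mul, Int.natAbs_natCast]
  rw [e, Nat.gcd_mul_right, h]

/-- odd prime powers dividing the length of a cycle are bounded -/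
theorem odd_pow (hG : HMW.T_KGU) (K : Type) [Field K] [NumberField K] (d ν N : ℕ) (hd : 2 ≤ d)
    (hν : 1 ≤ ν) (hN : N ≠ 0) (hM : 5 ≤ ν * (d - 1)) : ∃ B : ℕ, ∀ (g : K[X]) (c : K),
    g.natDegree = d → Hyp ν N g c → ∀ (x : K) (n : ℕ), 0 < n →
    Function.minimalPeriod (fg g c) x = n → ∀ l k : ℕ, l.Prime → l ≠ 2 → l ^ k ∣ n →
    l ^ k ≤ B := by
  classical
  obtain ⟨A, hA0, hA⟩ := power K d ν N hd hν hN
  obtain ⟨B, hB⟩ := wb hG K A hA0 (ν * (d - 1)) hM
  refine ⟨3 * B + 1, fun g c hgd h x n hn hx l k hl hl2 hdvd => ?_⟩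
  rcases Nat.eq_zero_or_pos k with rfl | hk
  · rw [pow_zero]; omega
  obtain ⟨k, rfl⟩ : ∃ j, k = j + 1 := ⟨k - 1, by omega⟩
  obtain ⟨m, hm⟩ := hdvd
  have hm0 : 0 < m := by
    rcases Nat.eq_zero_or_pos m with h0 | h0
    · rw [h0, mul_zero] at hm; omega
    · exact h0
  have hlodd : l % 2 = 1 := by
    rcases hl.eq_two_or_odd with h1 | h1
    · exact absurd h1 hl2
    · exact h1
  obtain ⟨s, hs⟩ : ∃ s, l = 2 * s + 1 := ⟨l / 2, by omega⟩
  have hs1 : 1 ≤ s := by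
    have := hl.two_le
    omega
  have hcop : ∀ i j : ℕ, i % l ≠ j % l →
      Nat.gcd (Int.natAbs ((i : ℤ) - j)) (l ^ (k + 1)) = 1 := by
    intro i j hij
    refine Nat.Coprime.pow_right _ (Nat.Coprime.symm ((Nat.Prime.coprime_iff_not_dvd hl).2 ?_))
    intro hdv
    apply hij
    have h1 : (l : ℤ) ∣ (i : ℤ) - j := Int.natCast_dvd.2 hdv
    have h2 : (j : ℤ) ≡ i [ZMOD l] := Int.modEq_iff_dvd.2 h1
    exact (Int.natCast_modEq_iff.1 h2).symm
  set u : ℕ → K := fun i => (fg g c)^[i * m] x with hu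
  have hlt : ∀ i, i < l ^ (k + 1) → i * m < n := by
    intro i hi
    rw [hm]
    exact Nat.mul_lt_mul_of_pos_right hi hm0
  have hne : ∀ i j, i < l ^ (k + 1) → j < l ^ (k + 1) → i ≠ j → u i ≠ u j := by
    intro i j hi hj hij
    refine cyc_ne (by rw [hx]; exact hlt i hi) (by rw [hx]; exact hlt j hj) ?_
    intro he
    exact hij (Nat.eq_of_mul_eq_mul_right hm0 he)
  have hpow : ∀ i j i' j', i < l ^ (k + 1) → j < l ^ (k + 1) → i' < l ^ (k + 1) →
      j' < l ^ (k + 1) → i % l ≠ j % l → i' % l ≠ j' % l → ∃ a ∈ A, ∃ z : K, z ≠ 0 ∧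
      u i - u j = a * z ^ (ν * (d - 1)) * (u i' - u j') := by
    intro i j i' j' hi hj hi' hj' hij hij'
    have e1 : i ≠ j := fun he => hij (by rw [he])
    have e2 : i' ≠ j' := fun he => hij' (by rw [he])
    refine cyc_power hd hA hgd h hn hx (hlt i hi) (hlt j hj) (hlt i' hi') (hlt j' hj')
      (fun he => e1 (Nat.eq_of_mul_eq_mul_right hm0 he))
      (fun he => e2 (Nat.eq_of_mul_eq_mul_right hm0 he)) ?_
    rw [hm, gcd_mul_aux (hcop i j hij), gcd_mul_aux (hcop i' j' hij')]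
  -- the two sets
  have hidx : ∀ a b, a < l ^ k → b < l → l * a + b < l ^ (k + 1) := by
    intro a b ha hb
    calc l * a + b < l * a + l := by omega
      _ = l * (a + 1) := by ring
      _ ≤ l * l ^ k := Nat.mul_le_mul_left _ ha
      _ = l ^ (k + 1) := by rw [pow_succ]; ring
  have hmod : ∀ a b, b < l → (l * a + b) % l = b := by
    intro a b hb
    rw [Nat.mul_add_mod, Nat.mod_eq_of_lt hb]
  have hpos : 0 < l ^ (k + 1) := pow_pos hl.pos _
  have hcard : ∀ I : Finset ℕ, (∀ b ∈ I, 1 ≤ b ∧ b < l) →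
      ((Finset.range (l ^ k) ×ˢ I).image fun p => u 0 - u (l * p.1 + p.2)).card =
        l ^ k * I.card := by
    intro I hI
    rw [Finset.card_image_of_injOn, Finset.card_product, Finset.card_range]
    rintro ⟨a, b⟩ hab ⟨a', b'⟩ hab' he
    rw [Finset.mem_coe, Finset.mem_product, Finset.mem_range] at hab hab'
    dsimp only at hab hab' he
    have hb := (hI b hab.2).2
    have hb' := (hI b' hab'.2).2
    have e1 : l * a + b = l * a' + b' := by
      by_contra hcon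
      exact hne _ _ (hidx a b hab.1 hb) (hidx a' b' hab'.1 hb') hcon (sub_right_injective he)
    have e2 : (l * a + b) % l = (l * a' + b') % l := by rw [e1]
    rw [hmod a b hb, hmod a' b' hb'] at e2
    have e3 : l * a = l * a' := by omega
    rw [Nat.eq_of_mul_eq_mul_left hl.pos e3, e2]
  have hzero : ∀ I : Finset ℕ, (∀ b ∈ I, 1 ≤ b ∧ b < l) →
      ∀ p ∈ (Finset.range (l ^ k) ×ˢ I).image fun p => u 0 - u (l * p.1 + p.2), p ≠ 0 := by
    intro I hI p hp
    obtain ⟨⟨a, b⟩, hab, rfl⟩ := Finset.mem_image.1 hp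
    rw [Finset.mem_product, Finset.mem_range] at hab
    dsimp only at hab ⊢
    refine sub_ne_zero.2 (hne 0 _ hpos (hidx a b hab.1 (hI b hab.2).2) ?_)
    have := (hI b hab.2).1
    omega
  have hI1 : ∀ b ∈ Finset.Icc 1 s, 1 ≤ b ∧ b < l := by
    intro b hb
    rw [Finset.mem_Icc] at hb
    omega
  have hI2 : ∀ b ∈ Finset.Icc (s + 1) (2 * s), 1 ≤ b ∧ b < l := by
    intro b hb
    rw [Finset.mem_Icc] at hb
    omega
  have hfin := hB ((Finset.range (l ^ k) ×ˢ Finset.Icc 1 s).image fun p =>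
      u 0 - u (l * p.1 + p.2)) ((Finset.range (l ^ k) ×ˢ Finset.Icc (s + 1) (2 * s)).image
      fun p => u 0 - u (l * p.1 + p.2)) (hzero _ hI1) (hzero _ hI2) (by
    intro p hp q hq
    obtain ⟨⟨a, b⟩, hab, rfl⟩ := Finset.mem_image.1 hp
    obtain ⟨⟨a', b'⟩, hab', rfl⟩ := Finset.mem_image.1 hq
    rw [Finset.mem_product, Finset.mem_range] at hab hab'
    dsimp only at hab hab' ⊢
    have hb := hI1 b hab.2
    have hb' := hI2 b' hab'.2
    have hbb : b ≠ b' := by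
      have h1 := Finset.mem_Icc.1 hab.2
      have h2 := Finset.mem_Icc.1 hab'.2
      omega
    have i1 := hidx a b hab.1 hb.2
    have i2 := hidx a' b' hab'.1 hb'.2
    have m1 := hmod a b hb.2
    have m2 := hmod a' b' hb'.2
    have hne2 : u 0 - u (l * a' + b') ≠ 0 := sub_ne_zero.2 (hne 0 _ hpos i2 (by omega))
    refine ⟨?_, ?_⟩
    · obtain ⟨α, hα, z, -, he⟩ := hpow 0 (l * a + b) 0 (l * a' + b') hpos i1 hpos i2
        (by rw [Nat.zero_mod, m1]; omega) (by rw [Nat.zero_mod, m2]; omega)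
      exact ⟨α, hα, z, by rw [he, mul_div_cancel_right₀ _ hne2]⟩
    · obtain ⟨α, hα, z, -, he⟩ := hpow (l * a + b) (l * a' + b') 0 (l * a' + b') i1 i2 hpos i2
        (by rw [m1, m2]; exact hbb) (by rw [Nat.zero_mod, m2]; omega)
      refine ⟨α, hα, z, ?_⟩
      rw [eq_comm, ← mul_div_cancel_right₀ (α * z ^ (ν * (d - 1))) hne2, ← he]
      field_simp
      ring)
  rw [hcard _ hI1, hcard _ hI2, Nat.card_Icc, Nat.card_Icc] at hfin
  have h1 : l ^ k * s ≤ B := by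
    rcases hfin with h1 | h1
    · simpa using h1
    · have e : 2 * s + 1 - (s + 1) = s := by omega
      rwa [e] at h1
  calc l ^ (k + 1) = l ^ k * l := pow_succ _ _
    _ ≤ l ^ k * (3 * s) := Nat.mul_le_mul_left _ (by omega)
    _ = 3 * (l ^ k * s) := by ring
    _ ≤ 3 * B + 1 := by omega

end Pool.Agent.PDP
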