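import Pool.Agent.PDP.SymMain

set_option autoImplicit false

/-!
# PDP: the three theorems together
-/

open Polynomial NumberField IsDedekindDomain
open scoped WithZero

noncomputable section

namespace Pool.Agent.PDP

/-- T3 over an arbitrary number field -/
theorem main3 (hG : HMW.T_KGU) (K : Type) [Field K] [NumberField K] (d ν N m : ℕ) (hd : 2 ≤ d)
    (hν : 1 ≤ ν) (hN : N ≠ 0) (hM : 5 ≤ ν * (d - 1)) (hm : 3 ≤ m) : ∃ B : ℕ, ∀ (g : K[X]) (c : K),
    (Polynomial.expand K m g).natDegree = d → Hyp ν N (Polynomial.expand K m g) c →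
    {x : K | ∃ k n : ℕ, Function.minimalPeriod (fg (Polynomial.expand K m g) c)
      ((fg (Polynomial.expand K m g) c)^[k] x) = n ∧ 0 < n ∧ (k = 0 ∨ 2 ≤ n)}.encard ≤
      (B : ℕ∞) := by
  have : NeZero m := ⟨by omega⟩
  have hL : NumberField (CyclotomicField m K) := IsCyclotomicExtension.numberField {m} K _
  obtain ⟨B, hB⟩ := main3L hG (CyclotomicField m K) d ν N m hd hν hN hM hm
    (IsCyclotomicExtension.zeta m K (CyclotomicField m K))
    (IsCyclotomicExtension.zeta_spec m K (CyclotomicField m K))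
  refine ⟨B, fun g c hgd h => ?_⟩
  rcases Set.eq_empty_or_nonempty {x : K | ∃ k n : ℕ,
    Function.minimalPeriod (fg (Polynomial.expand K m g) c)
      ((fg (Polynomial.expand K m g) c)^[k] x) = n ∧ 0 < n ∧ (k = 0 ∨ 2 ≤ n)} with h0 | h0
  · rw [h0, Set.encard_empty]
    exact zero_le
  · obtain ⟨x, k, n, hn, hn0, -⟩ := h0
    have hx : Pre (Polynomial.expand K m g) c x := by
      refine pre_of_it k (pre_of_periodic hn0 ?_)
      rw [← hn]
      exact Function.iterate_minimalPeriod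
    have hup := hyp_up (L := CyclotomicField m K) (by omega) h hx
    rw [map_expand] at hup
    have hgd' : (Polynomial.expand (CyclotomicField m K) m
        (g.map (algebraMap K (CyclotomicField m K)))).natDegree = d := by
      rw [← map_expand, natDegree_map, hgd]
    refine le_trans ?_ (hB _ _ hgd' hup)
    rw [← (algebraMap K (CyclotomicField m K)).injective.encard_image]
    refine Set.encard_le_encard ?_
    rintro _ ⟨y, ⟨k, n, h1, h2, h3⟩, rfl⟩
    refine ⟨k, n, ?_, h2, h3⟩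
    rw [← map_expand, (minPer_up _ _ _).2, h1]

/-- the standing hypotheses in terms of `g` for the polynomial `g(x^m)` -/
lemma hyp_expand {K : Type} [Field K] [NumberField K] {ν N m : ℕ} (hm : 0 < m) {g : K[X]} {c : K}
    (h1 : ∀ v : HeightOneSpectrum (𝓞 K), (N : 𝓞 K) ∉ v.asIdeal →
      (∀ i, v.valuation K (g.coeff i) ≤ 1) ∧ v.valuation K g.leadingCoeff = 1)
    (h2 : ∀ v : HeightOneSpectrum (𝓞 K), (N : 𝓞 K) ∉ v.asIdeal → ∀ k : ℤ, 0 < k →
      WithZero.log (v.valuation K c) = ((g.natDegree * m : ℕ) : ℤ) * k → (ν : ℤ) ∣ k) :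
    Hyp ν N (Polynomial.expand K m g) c := by
  refine ⟨fun v hv => ⟨fun i => ?_, ?_⟩, fun v hv k hk hlog => ?_⟩
  · rw [coeff_expand hm]
    split_ifs
    · exact (h1 v hv).1 _
    · rw [map_zero]
      exact zero_le
  · rw [leadingCoeff_expand hm]
    exact (h1 v hv).2
  · rw [natDegree_expand] at hlog
    exact h2 v hv k hk hlog

/-- T1 and T2 -/
theorem thmA (hG : HMW.T_KGU) (K : Type) [Field K] [NumberField K] (d ν N : ℕ)
    (hν : 1 ≤ ν) (hN : N ≠ 0) (hM : 5 ≤ ν * (d - 1)) :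
    ∃ B : ℕ, ∀ (g : K[X]) (c : K), g.natDegree = d →
      (∀ v : HeightOneSpectrum (𝓞 K), (N : 𝓞 K) ∉ v.asIdeal →
        (∀ i, v.valuation K (g.coeff i) ≤ 1) ∧ v.valuation K g.leadingCoeff = 1 ∧
        ∀ k : ℤ, 0 < k → WithZero.log (v.valuation K c) = d * k → (ν : ℤ) ∣ k) →
      (∀ x ∈ Function.periodicPts (fun y => g.eval y + c), ∀ q : ℕ, Odd q →
        q ∣ Function.minimalPeriod (fun y => g.eval y + c) x → q ≤ B) ∧
      ∀ r : ℕ, {x : K | ∃ k n : ℕ, Function.minimalPeriod (fun y => g.eval y + c)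
        ((fun y => g.eval y + c)^[k] x) = n ∧ 0 < n ∧ (k = 0 ∨ 3 ≤ n) ∧
        (¬ 2 ^ r ∣ n ∨ 2 ∣ ν * (d - 1))}.encard ≤ ((B ^ 2 ^ r : ℕ) : ℕ∞) := by
  have hd : 2 ≤ d := by
    by_contra hcon
    have : d - 1 = 0 := by omega
    rw [this, mul_zero] at hM
    omega
  obtain ⟨B, hB⟩ := main12 hG K d ν N hd hν hN hM
  refine ⟨B, fun g c hg h => ?_⟩
  have hyp : Hyp ν N g c := ⟨fun v hv => ⟨(h v hv).1, (h v hv).2.1⟩, fun v hv k hk hlog => by
    rw [hg] at hlog
    exact (h v hv).2.2 k hk hlog⟩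
  exact hB g c hg hyp

/-- T3 -/
theorem thmB (hG : HMW.T_KGU) (K : Type) [Field K] [NumberField K] (d m N : ℕ) (hd : 6 ≤ d)
    (hm : 3 ≤ m) (hN : N ≠ 0) :
    ∃ B : ℕ, ∀ (g : K[X]) (c : K), m * g.natDegree = d →
      (∀ v : HeightOneSpectrum (𝓞 K), (N : 𝓞 K) ∉ v.asIdeal →
        (∀ i, v.valuation K (g.coeff i) ≤ 1) ∧ v.valuation K g.leadingCoeff = 1) →
      {x : K | x ∈ Function.periodicPts (fun y => g.eval (y ^ m) + c) ∨
        ∃ k : ℕ, 2 ≤ Function.minimalPeriod (fun y => g.eval (y ^ m) + c)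
          ((fun y => g.eval (y ^ m) + c)^[k] x)}.encard ≤ (B : ℕ∞) := by
  obtain ⟨B, hB⟩ := main3 hG K d 1 N m (by omega) le_rfl hN (by omega) hm
  refine ⟨B, fun g c hg h => ?_⟩
  have hdeg : (Polynomial.expand K m g).natDegree = d := by
    rw [natDegree_expand, mul_comm, hg]
  have hyp : Hyp 1 N (Polynomial.expand K m g) c :=
    hyp_expand (by omega) h fun v _ k _ _ => by
      rw [Nat.cast_one]
      exact one_dvd _
  have hfun : (fun y => g.eval (y ^ m) + c) = fg (Polynomial.expand K m g) c := by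
    funext y
    rw [fg_expand]
  refine le_trans (Set.encard_le_encard ?_) (hB g c hdeg hyp)
  rintro x hx
  rw [Set.mem_ofPred_eq, hfun] at hx
  rcases hx with hx | ⟨k, hk⟩
  · exact ⟨0, _, rfl, Function.minimalPeriod_pos_iff_mem_periodicPts.2 hx, Or.inl rfl⟩
  · exact ⟨k, _, rfl, by omega, Or.inr hk⟩

end Pool.Agent.PDP
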