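import Mathlib

set_option autoImplicit false

/-!
# PDP: local lemmas for `f = g + c`

`w` is a valuation, `g` is a polynomial with `w`-integral coefficients whose leading coefficient is
a `w`-unit, `c` is arbitrary.
-/

open Polynomial
open scoped WithZero

noncomputable section

namespace Pool.Agent.PDP

/-- the map `x ↦ g(x) + c` -/
def fg {K : Type} [Field K] (g : K[X]) (c x : K) : K := g.eval x + c

/-- `x` has a finite orbit under `x ↦ g(x) + c` -/
def Pre {K : Type} [Field K] (g : K[X]) (c x : K) : Prop :=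
  (Set.range fun k : ℕ => (fg g c)^[k] x).Finite

/-- `g` is integral at `w`, with a unit as leading coefficient -/
def IG {L Γ : Type} [Field L] [LinearOrderedCommGroupWithZero Γ] (w : Valuation L Γ)
    (g : L[X]) : Prop :=
  (∀ i, w (g.coeff i) ≤ 1) ∧ w g.leadingCoeff = 1

section Orbit

variable {L : Type} [Field L] {g : L[X]} {c : L}

lemma pre_fg {x : L} (h : Pre g c x) : Pre g c (fg g c x) := by
  refine h.subset ?_
  rintro _ ⟨k, rfl⟩
  exact ⟨k + 1, by simp only [Function.iterate_succ_apply]⟩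

lemma pre_it {x : L} (h : Pre g c x) (k : ℕ) : Pre g c ((fg g c)^[k] x) := by
  induction k with
  | zero => exact h
  | succ k ih =>
    rw [Function.iterate_succ_apply']
    exact pre_fg ih

lemma pre_of_it {x : L} (k : ℕ) (h : Pre g c ((fg g c)^[k] x)) : Pre g c x := by
  refine ((Set.finite_lt_nat k).image fun i => (fg g c)^[i] x).union h |>.subset ?_
  rintro _ ⟨i, rfl⟩
  rcases lt_or_ge i k with hi | hi
  · exact Or.inl ⟨i, hi, rfl⟩
  · refine Or.inr ⟨i - k, ?_⟩
    dsimp only
    rw [← Function.iterate_add_apply, Nat.sub_add_cancel hi]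

lemma pre_of_periodic {x : L} {n : ℕ} (hn : 0 < n) (h : (fg g c)^[n] x = x) : Pre g c x := by
  refine ((Set.finite_lt_nat n).image fun i => (fg g c)^[i] x).subset ?_
  rintro _ ⟨i, rfl⟩
  refine ⟨i % n, Nat.mod_lt _ hn, ?_⟩
  exact Function.IsPeriodicPt.iterate_mod_apply h i

end Orbit

section Loc

variable {L Γ : Type} [Field L] [LinearOrderedCommGroupWithZero Γ] {w : Valuation L Γ} {g : L[X]}
  {c : L}

lemma eval_le (hg : IG w g) {y : L} (hy : w y ≤ 1) : w (g.eval y) ≤ 1 := by
  rw [eval_eq_sum_range]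
  refine Valuation.map_sum_le w fun i _ => ?_
  rw [map_mul, map_pow]
  exact mul_le_one' (hg.1 i) (pow_le_one' hy i)

lemma eval_gt (hg : IG w g) {y : L} (hy : 1 < w y) :
    w (g.eval y) = w y ^ g.natDegree := by
  have h0 : w y ≠ 0 := (zero_lt_one.trans hy).ne'
  rw [eval_eq_sum_range, Finset.sum_range_succ]
  have h1 : w (g.coeff g.natDegree * y ^ g.natDegree) = w y ^ g.natDegree := by
    rw [map_mul, map_pow]
    have h2 := hg.2
    rw [leadingCoeff] at h2
    rw [h2, one_mul]
  rw [Valuation.map_add_eq_of_lt_right, h1]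
  rw [h1]
  refine Valuation.map_sum_lt w (pow_ne_zero _ h0) fun i hi => ?_
  rw [Finset.mem_range] at hi
  rw [map_mul, map_pow]
  calc w (g.coeff i) * w y ^ i ≤ 1 * w y ^ i := mul_le_mul_left (hg.1 i) _
    _ = w y ^ i := one_mul _
    _ < w y ^ g.natDegree := pow_lt_pow_right₀ hy hi

/-- escape -/
lemma step (hg : IG w g) (hd : 2 ≤ g.natDegree) {y : L} (h1 : 1 < w y)
    (h2 : w c < w y ^ g.natDegree) :
    1 < w (fg g c y) ∧ w c < w (fg g c y) ^ g.natDegree ∧ w y < w (fg g c y) := by
  have h3 : w (fg g c y) = w y ^ g.natDegree := by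
    unfold fg
    rw [Valuation.map_add_eq_of_lt_left, eval_gt hg h1]
    rwa [eval_gt hg h1]
  have h4 : w y < w y ^ g.natDegree := by
    conv_lhs => rw [← pow_one (w y)]
    exact pow_lt_pow_right₀ h1 (by omega)
  have h5 : w y ^ g.natDegree < (w y ^ g.natDegree) ^ g.natDegree := by
    conv_lhs => rw [← pow_one (w y ^ g.natDegree)]
    exact pow_lt_pow_right₀ (h1.trans h4) (by omega)
  rw [h3]
  exact ⟨h1.trans h4, h2.trans h5, h4⟩

lemma escape (hg : IG w g) (hd : 2 ≤ g.natDegree) {y : L} (h1 : 1 < w y)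
    (h2 : w c < w y ^ g.natDegree) : ¬ Pre g c y := by
  have h3 : ∀ k : ℕ, 1 < w ((fg g c)^[k] y) ∧ w c < w ((fg g c)^[k] y) ^ g.natDegree := by
    intro k
    induction k with
    | zero => exact ⟨h1, h2⟩
    | succ k ih =>
      rw [Function.iterate_succ_apply']
      have h := step hg hd ih.1 ih.2
      exact ⟨h.1, h.2.1⟩
  have h4 : StrictMono fun k : ℕ => w ((fg g c)^[k] y) := by
    refine strictMono_nat_of_lt_succ fun k => ?_
    rw [Function.iterate_succ_apply']
    exact (step hg hd (h3 k).1 (h3 k).2).2.2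
  have h5 : Function.Injective fun k : ℕ => (fg g c)^[k] y := by
    intro a b hab
    exact h4.injective (congrArg w hab)
  exact Set.infinite_range_of_injective h5

/-- preperiodic points are integral where `c` is -/
lemma pre_le (hg : IG w g) (hd : 2 ≤ g.natDegree) (hc : w c ≤ 1) {x : L} (hx : Pre g c x) :
    w x ≤ 1 := by
  by_contra h
  push Not at h
  exact escape hg hd h (hc.trans_lt (one_lt_pow₀ h (by omega))) hx

/-- the valuation of preperiodic points where `c` is not integral -/
lemma pre_eq (hg : IG w g) (hd : 2 ≤ g.natDegree) (hc : 1 < w c) {x : L} (hx : Pre g c x) :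
    w x ^ g.natDegree = w c := by
  by_contra hne
  have hcc : w c < w c ^ g.natDegree := by
    conv_lhs => rw [← pow_one (w c)]
    exact pow_lt_pow_right₀ hc (by omega)
  have key : w (fg g c x) = w c → False := fun h =>
    escape hg hd (y := fg g c x) (c := c) (by rw [h]; exact hc) (by rw [h]; exact hcc) (pre_fg hx)
  rcases le_or_gt (w x) 1 with h1 | h1
  · refine key ?_
    unfold fg
    rw [Valuation.map_add_eq_of_lt_right]
    exact (eval_le hg h1).trans_lt hc
  · rcases lt_or_gt_of_ne hne with h | h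
    · refine key ?_
      unfold fg
      rw [Valuation.map_add_eq_of_lt_right]
      rwa [eval_gt hg h1]
    · exact escape hg hd h1 h hx

/-- the quotient `(x^i - y^i) / (x - y)` -/
def Si (i : ℕ) (x y : L) : L := ∑ j ∈ Finset.range i, x ^ j * y ^ (i - 1 - j)

lemma Si_mul (i : ℕ) (x y : L) : Si i x y * (x - y) = x ^ i - y ^ i := by
  unfold Si
  exact geom_sum₂_mul x y i

lemma eval_sub_eval (x y : L) : g.eval x - g.eval y =
    (∑ i ∈ Finset.range (g.natDegree + 1), g.coeff i * Si i x y) * (x - y) := by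
  rw [eval_eq_sum_range, eval_eq_sum_range, ← Finset.sum_sub_distrib, Finset.sum_mul]
  refine Finset.sum_congr rfl fun i _ => ?_
  rw [mul_assoc, Si_mul]
  ring

lemma fg_sub (x y : L) : fg g c x - fg g c y =
    (∑ i ∈ Finset.range (g.natDegree + 1), g.coeff i * Si i x y) * (x - y) := by
  rw [← eval_sub_eval]
  unfold fg
  ring

lemma Si_le {x y : L} {V : Γ} (hx : w x ≤ V) (hy : w y ≤ V) (i : ℕ) :
    w (Si (i + 1) x y) ≤ V ^ i := by
  unfold Si
  refine Valuation.map_sum_le w fun j hj => ?_
  rw [Finset.mem_range] at hj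
  rw [map_mul, map_pow, map_pow]
  calc w x ^ j * w y ^ (i + 1 - 1 - j) ≤ V ^ j * V ^ (i + 1 - 1 - j) :=
        mul_le_mul' (pow_le_pow_left' hx _) (pow_le_pow_left' hy _)
    _ = V ^ i := by rw [← pow_add]; congr 1; omega

/-- the map does not increase distances of integral points -/
lemma lip (hg : IG w g) {x y : L} (hx : w x ≤ 1) (hy : w y ≤ 1) :
    w (fg g c x - fg g c y) ≤ w (x - y) := by
  rw [fg_sub, map_mul]
  have h : w (∑ i ∈ Finset.range (g.natDegree + 1), g.coeff i * Si i x y) ≤ 1 := by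
    refine Valuation.map_sum_le w fun i _ => ?_
    rw [map_mul]
    refine mul_le_one' (hg.1 i) ?_
    rcases i with _ | i
    · simp [Si]
    · have := Si_le hx hy i
      rwa [one_pow] at this
  calc _ ≤ 1 * w (x - y) := mul_le_mul_left h _
    _ = w (x - y) := one_mul _

lemma pow_sub_lt {x y : L} {V : Γ} (hV : V ≠ 0) (hx : w x = V) (hy : w y = V)
    (hxy : w (x - y) < V) (j : ℕ) : w (x ^ j - y ^ j) < V ^ j := by
  rcases j with _ | j
  · simp
  · rw [← Si_mul, map_mul]
    calc w (Si (j + 1) x y) * w (x - y) ≤ V ^ j * w (x - y) :=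
          mul_le_mul_left (Si_le hx.le hy.le j) _
      _ < V ^ j * V := by
          rcases eq_or_ne (w (x - y)) 0 with h0 | h0
          · rw [h0, mul_zero]
            exact mul_pos (pow_pos (zero_lt_iff.2 hV) _) (zero_lt_iff.2 hV)
          · exact mul_lt_mul_of_pos_left hxy (pow_pos (zero_lt_iff.2 hV) _)
      _ = V ^ (j + 1) := (pow_succ _ _).symm

lemma Si_eq {x y : L} {V : Γ} (hV : V ≠ 0) (hx : w x = V) (hy : w y = V)
    (hxy : w (x - y) < V) (d : ℕ) (hd : w ((d + 1 : ℕ) : L) = 1) :
    w (Si (d + 1) x y) = V ^ d := by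
  have h1 : Si (d + 1) x y = ((d + 1 : ℕ) : L) * y ^ d +
      ∑ j ∈ Finset.range (d + 1), (x ^ j - y ^ j) * y ^ (d + 1 - 1 - j) := by
    have h2 : ∑ j ∈ Finset.range (d + 1), y ^ j * y ^ (d + 1 - 1 - j) =
        ((d + 1 : ℕ) : L) * y ^ d := by
      rw [← nsmul_eq_mul]
      conv_rhs => rw [← Finset.card_range (d + 1)]
      rw [← Finset.sum_const]
      refine Finset.sum_congr rfl fun j hj => ?_
      rw [Finset.mem_range] at hj
      rw [← pow_add]
      congr 1
      omega
    rw [← h2, ← Finset.sum_add_distrib]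
    unfold Si
    refine Finset.sum_congr rfl fun j _ => ?_
    ring
  have h3 : w (((d + 1 : ℕ) : L) * y ^ d) = V ^ d := by
    rw [map_mul, hd, one_mul, map_pow, hy]
  rw [h1, Valuation.map_add_eq_of_lt_left, h3]
  rw [h3]
  refine Valuation.map_sum_lt w (pow_ne_zero _ hV) fun j hj => ?_
  rw [Finset.mem_range] at hj
  rw [map_mul, map_pow, hy]
  calc w (x ^ j - y ^ j) * V ^ (d + 1 - 1 - j) < V ^ j * V ^ (d + 1 - 1 - j) :=
        mul_lt_mul_of_pos_right (pow_sub_lt hV hx hy hxy j) (pow_pos (zero_lt_iff.2 hV) _)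
    _ = V ^ d := by rw [← pow_add]; congr 1; omega

/-- exact expansion on a small disc -/
lemma expand (hg : IG w g) (hd : 2 ≤ g.natDegree) (hwd : w ((g.natDegree : ℕ) : L) = 1)
    {x y : L} {V : Γ} (hV : 1 < V) (hx : w x = V) (hy : w y = V) (hxy : w (x - y) < V) :
    w (fg g c x - fg g c y) = V ^ (g.natDegree - 1) * w (x - y) := by
  have hV0 : V ≠ 0 := (zero_lt_one.trans hV).ne'
  obtain ⟨d, hdd⟩ : ∃ d, g.natDegree = d + 1 := ⟨g.natDegree - 1, by omega⟩
  rw [fg_sub, map_mul]
  congr 1
  rw [Finset.sum_range_succ]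
  have h1 : w (g.coeff g.natDegree * Si g.natDegree x y) = V ^ (g.natDegree - 1) := by
    rw [map_mul]
    have h2 := hg.2
    rw [leadingCoeff] at h2
    rw [h2, one_mul, hdd, Nat.add_sub_cancel]
    refine Si_eq hV0 hx hy hxy d ?_
    rw [← hdd]
    exact hwd
  rw [Valuation.map_add_eq_of_lt_right, h1]
  rw [h1]
  refine Valuation.map_sum_lt w (pow_ne_zero _ hV0) fun i hi => ?_
  rw [Finset.mem_range] at hi
  rw [map_mul]
  rcases i with _ | i
  · simp only [Si, Finset.range_zero, Finset.sum_empty, map_zero, mul_zero]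
    exact pow_pos (zero_lt_iff.2 hV0) _
  · calc w (g.coeff (i + 1)) * w (Si (i + 1) x y) ≤ 1 * V ^ i :=
          mul_le_mul' (hg.1 _) (Si_le hx.le hy.le i)
      _ = V ^ i := one_mul _
      _ < V ^ (g.natDegree - 1) := pow_lt_pow_right₀ hV (by omega)

/-- distances in a cycle -/
lemma cyc_const (hg : IG w g) (hd : 2 ≤ g.natDegree) (hc : w c ≤ 1) {x : L} {n : ℕ} (hn : 0 < n)
    (hx : (fg g c)^[n] x = x) (i j : ℕ) :
    w ((fg g c)^[i + j] x - (fg g c)^[i] x) = w ((fg g c)^[j] x - x) := by
  have hp : Pre g c x := pre_of_periodic hn hx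
  have h1 : ∀ i, w ((fg g c)^[i + 1 + j] x - (fg g c)^[i + 1] x) ≤
      w ((fg g c)^[i + j] x - (fg g c)^[i] x) := by
    intro i
    rw [show i + 1 + j = (i + j) + 1 by ring, Function.iterate_succ_apply',
      Function.iterate_succ_apply']
    exact lip hg (pre_le hg hd hc (pre_it hp _)) (pre_le hg hd hc (pre_it hp _))
  have h2 : Antitone fun i : ℕ => w ((fg g c)^[i + j] x - (fg g c)^[i] x) :=
    antitone_nat_of_succ_le h1
  have h3 : ∀ k, (fg g c)^[k * n] x = x := fun k =>
    (Function.IsPeriodicPt.const_mul (f := fg g c) (m := n) (x := x) hx k)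
  have h0 : w ((fg g c)^[j] x - x) = w ((fg g c)^[0 + j] x - (fg g c)^[0] x) := by
    rw [zero_add, Function.iterate_zero_apply]
  rw [h0]
  refine le_antisymm (h2 (Nat.zero_le i)) ?_
  have h4 : i ≤ i * n := Nat.le_mul_of_pos_right i hn
  have h5 := h2 h4
  dsimp only at h5
  refine le_trans (le_of_eq ?_) h5
  rw [add_comm (i * n) j, Function.iterate_add_apply (fg g c) j (i * n), h3, Nat.zero_add,
    Function.iterate_zero_apply]

/-- distances in a cycle depend only on the greatest common divisor of the index difference and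
the length -/
lemma cyc_gcd (hg : IG w g) (hd : 2 ≤ g.natDegree) (hc : w c ≤ 1) {x : L} {n : ℕ} (hn : 0 < n)
    (hx : (fg g c)^[n] x = x) (j : ℕ) :
    w ((fg g c)^[j] x - x) = w ((fg g c)^[Nat.gcd j n] x - x) := by
  have hmul : ∀ j t, w ((fg g c)^[t * j] x - x) ≤ w ((fg g c)^[j] x - x) := by
    intro j t
    induction t with
    | zero => simp
    | succ t ih =>
      have h1 : (fg g c)^[(t + 1) * j] x - x =
          ((fg g c)^[t * j + j] x - (fg g c)^[t * j] x) + ((fg g c)^[t * j] x - x) := by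
        rw [Nat.succ_mul]
        ring
      rw [h1]
      refine (Valuation.map_add w _ _).trans (max_le ?_ ih)
      exact (cyc_const hg hd hc hn hx (t * j) j).le
  have hmod : ∀ a b : ℕ, a % n = b % n → (fg g c)^[a] x = (fg g c)^[b] x := by
    intro a b hab
    rw [← Function.IsPeriodicPt.iterate_mod_apply (f := fg g c) (n := n) hx a, hab,
      Function.IsPeriodicPt.iterate_mod_apply (f := fg g c) (n := n) hx b]
  apply le_antisymm
  · obtain ⟨t, ht⟩ := Nat.gcd_dvd_left j n
    have h1 := hmul (Nat.gcd j n) t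
    rwa [mul_comm, ← ht] at h1
  · obtain ⟨t, ht⟩ : ∃ t : ℕ, (t * j) % n = Nat.gcd j n % n := by
      have h1 := Nat.gcd_eq_gcd_ab j n
      have hn' : (n : ℤ) ≠ 0 := by exact_mod_cast hn.ne'
      refine ⟨(Nat.gcdA j n % n).toNat, ?_⟩
      have h2 : (((Nat.gcdA j n % n).toNat : ℕ) : ℤ) = Nat.gcdA j n % n :=
        Int.toNat_of_nonneg (Int.emod_nonneg _ hn')
      have h3 : (((Nat.gcdA j n % n).toNat * j : ℕ) : ℤ) ≡ (Nat.gcd j n : ℤ) [ZMOD n] := by
        rw [Nat.cast_mul, h2, h1]
        have h4 : Nat.gcdA j n % n ≡ Nat.gcdA j n [ZMOD n] := Int.mod_modEq _ _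
        have h5 := h4.mul_right (j : ℤ)
        refine h5.trans ?_
        have h6 : (n : ℤ) * Nat.gcdB j n ≡ 0 [ZMOD n] := by
          rw [Int.modEq_zero_iff_dvd]
          exact dvd_mul_right _ _
        have h7 := h6.add_left ((j : ℤ) * Nat.gcdA j n)
        rw [add_zero] at h7
        rw [mul_comm (Nat.gcdA j n)]
        exact h7.symm
      exact (Int.natCast_modEq_iff.1 h3)
    rw [← hmod _ _ ht]
    exact hmul j t

end Loc

section Bad

variable {L : Type} [Field L] {w : Valuation L ℤᵐ⁰} {g : L[X]} {c : L}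

open WithZero

/-- differences of preperiodic points where `c` is not integral -/
lemma bad_dvd (hg : IG w g) (hd : 2 ≤ g.natDegree) (hwd : w ((g.natDegree : ℕ) : L) = 1)
    (hc : 1 < w c) {x y : L} (hx : Pre g c x) (hy : Pre g c y) (hxy : x ≠ y) :
    ((g.natDegree : ℤ) - 1) * log (w x) ∣ log (w (x - y)) - log (w x) := by
  have hval : ∀ u : L, Pre g c u → w u ^ g.natDegree = w c := fun u hu => pre_eq hg hd hc hu
  have hV0 : w x ≠ 0 := by
    intro h0
    have := hval x hx
    rw [h0, zero_pow (by omega)] at this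
    rw [← this] at hc
    exact absurd hc (by simp)
  have hVeq : ∀ u : L, Pre g c u → w u = w x := by
    intro u hu
    have h1 : w u ^ g.natDegree = w x ^ g.natDegree := (hval u hu).trans (hval x hx).symm
    exact (pow_left_inj₀ zero_le zero_le (by omega)).1 h1
  have hV1 : 1 < w x := by
    by_contra hle
    push Not at hle
    have h1 := hval x hx
    have h2 : w x ^ g.natDegree ≤ 1 := pow_le_one' hle _
    rw [h1] at h2
    exact absurd hc (not_lt.2 h2)
  have hlogV : 1 ≤ log (w x) := by
    have h2 : log (1 : ℤᵐ⁰) < log (w x) := (log_lt_log one_ne_zero hV0).2 hV1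
    rw [log_one] at h2
    omega
  have hle : ∀ u v : L, Pre g c u → Pre g c v → w (u - v) ≤ w x := by
    intro u v hu hv
    exact (Valuation.map_sub w u v).trans (max_le (hVeq u hu).le (hVeq v hv).le)
  have claim : ∀ n : ℕ, ∀ u v : L, Pre g c u → Pre g c v → u ≠ v →
      log (w x) - log (w (u - v)) = n →
      ((g.natDegree : ℤ) - 1) * log (w x) ∣ log (w (u - v)) - log (w x) := by
    intro n
    induction n using Nat.strong_induction_on with
    | _ n ih =>
      intro u v hu hv huv hn
      have hne : u - v ≠ 0 := sub_ne_zero.2 huv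
      have hw0 : w (u - v) ≠ 0 := (Valuation.ne_zero_iff w).2 hne
      rcases (hle u v hu hv).lt_or_eq with hlt | heq
      · have hpr := expand (c := c) hg hd hwd hV1 (hVeq u hu) (hVeq v hv) hlt
        have hne2 : fg g c u ≠ fg g c v := by
          intro h
          rw [h, sub_self, map_zero] at hpr
          exact (mul_ne_zero (pow_ne_zero _ hV0) hw0) hpr.symm
        have hlog : log (w (fg g c u - fg g c v)) =
            log (w (u - v)) + ((g.natDegree : ℤ) - 1) * log (w x) := by
          rw [hpr, log_mul (pow_ne_zero _ hV0) hw0, log_pow]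
          have : ((g.natDegree - 1 : ℕ) : ℤ) = (g.natDegree : ℤ) - 1 := by
            push_cast [Nat.cast_sub (by omega : 1 ≤ g.natDegree)]; rfl
          rw [nsmul_eq_mul, this]
          ring
        have hw1 : w (fg g c u - fg g c v) ≠ 0 := (Valuation.ne_zero_iff w).2 (sub_ne_zero.2 hne2)
        have hr0 := (log_le_log hw1 hV0).2 (hle _ _ (pre_fg hu) (pre_fg hv))
        have hpos : 0 < ((g.natDegree : ℤ) - 1) * log (w x) := by
          apply mul_pos
          · have : (2 : ℤ) ≤ g.natDegree := by exact_mod_cast hd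
            omega
          · omega
        have h3 := ih (log (w x) - log (w (fg g c u - fg g c v))).toNat (by omega) _ _
          (pre_fg hu) (pre_fg hv) hne2 (by rw [Int.toNat_of_nonneg (by omega)])
        rw [hlog] at h3
        have h4 : log (w (u - v)) - log (w x) =
            (log (w (u - v)) + ((g.natDegree : ℤ) - 1) * log (w x) - log (w x)) -
            ((g.natDegree : ℤ) - 1) * log (w x) := by ring
        rw [h4]
        exact dvd_sub h3 (dvd_refl _)
      · rw [heq, sub_self]
        exact dvd_zero _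
  have hw0 : w (x - y) ≠ 0 := (Valuation.ne_zero_iff w).2 (sub_ne_zero.2 hxy)
  have h1 := (log_le_log hw0 hV0).2 (hle x y hx hy)
  exact claim (log (w x) - log (w (x - y))).toNat x y hx hy hxy
    (by rw [Int.toNat_of_nonneg (by omega)])

end Bad

end Pool.Agent.PDP
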