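import Pool.Agent.PDP.Local
import Pool.Agent.HMW.TargetsK
import Pool.Agent.HMW.SEL

set_option autoImplicit false

/-!
# PDP: differences of preperiodic points up to powers
-/

open Polynomial NumberField IsDedekindDomain
open scoped WithZero

noncomputable section

namespace Pool.Agent.PDP

/-- the standing hypotheses: `g` is integral with unit leading coefficient outside `N`; if `c` has
a pole of order `d k` at a prime outside `N` (`d` the degree of `g`) then `ν` divides `k` -/
structure Hyp {K : Type} [Field K] [NumberField K] (ν N : ℕ) (g : K[X]) (c : K) : Prop where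
  ig : ∀ v : HeightOneSpectrum (𝓞 K), (N : 𝓞 K) ∉ v.asIdeal → IG (v.valuation K) g
  dv : ∀ v : HeightOneSpectrum (𝓞 K), (N : 𝓞 K) ∉ v.asIdeal → ∀ k : ℤ, 0 < k →
    WithZero.log (v.valuation K c) = g.natDegree * k → (ν : ℤ) ∣ k

/-- a prime which does not contain `d` -/
lemma val_one {L : Type} [Field L] [NumberField L] (v : HeightOneSpectrum (𝓞 L)) (d : ℕ)
    (hv : (d : 𝓞 L) ∉ v.asIdeal) : v.valuation L (d : L) = 1 := by
  have h5 : v.valuation L (algebraMap (𝓞 L) L (d : 𝓞 L)) ≤ 1 := v.valuation_le_one _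
  have h6 : ¬ v.valuation L (algebraMap (𝓞 L) L (d : 𝓞 L)) < 1 := fun h =>
    hv ((v.valuation_lt_one_iff_mem _).mp h)
  have h7 : algebraMap (𝓞 L) L (d : 𝓞 L) = (d : L) := map_natCast _ _
  rw [h7] at h5 h6
  exact le_antisymm h5 (not_lt.mp h6)

open WithZero in
/-- at a prime where `c` is not integral all differences of preperiodic points have the same
valuation modulo `ν (d - 1)` -/
lemma bad_cong {K : Type} [Field K] [NumberField K] {ν N d : ℕ} (hd : 2 ≤ d) {g : K[X]} {c : K}
    (hgd : g.natDegree = d) (h : Hyp ν N g c) (v : HeightOneSpectrum (𝓞 K))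
    (hv : (N : 𝓞 K) ∉ v.asIdeal) (hv' : (d : 𝓞 K) ∉ v.asIdeal) (hc : 1 < v.valuation K c)
    {p q p' q' : K} (hp : Pre g c p) (hq : Pre g c q) (hp' : Pre g c p') (hq' : Pre g c q')
    (h1 : p ≠ q) (h2 : p' ≠ q') : ((ν * (d - 1) : ℕ) : ℤ) ∣
      log (v.valuation K (p - q)) - log (v.valuation K (p' - q')) := by
  subst hgd
  have hw := val_one v _ hv'
  have e1 := bad_dvd (h.ig v hv) hd hw hc hp hq h1
  have e2 := bad_dvd (h.ig v hv) hd hw hc hp' hq' h2
  have f1 := pre_eq (h.ig v hv) hd hc hp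
  have f2 := pre_eq (h.ig v hv) hd hc hp'
  have hpp : v.valuation K p' = v.valuation K p :=
    (pow_left_inj₀ zero_le zero_le (by omega)).1 (f2.trans f1.symm)
  have hV1 : 1 < v.valuation K p := by
    by_contra hle
    push Not at hle
    have h2 : v.valuation K p ^ g.natDegree ≤ 1 := pow_le_one' hle _
    rw [f1] at h2
    exact absurd hc (not_lt.2 h2)
  have hV0 : v.valuation K p ≠ 0 := (zero_lt_one.trans hV1).ne'
  have hk : 0 < log (v.valuation K p) := by
    have h2 : log (1 : ℤᵐ⁰) < log (v.valuation K p) := (log_lt_log one_ne_zero hV0).2 hV1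
    rwa [log_one] at h2
  have hν : (ν : ℤ) ∣ log (v.valuation K p) := by
    refine h.dv v hv _ hk ?_
    rw [← f1, log_pow, nsmul_eq_mul]
  have hdv : ((ν * (g.natDegree - 1) : ℕ) : ℤ) ∣
      ((g.natDegree : ℤ) - 1) * log (v.valuation K p) := by
    have hcast : ((g.natDegree - 1 : ℕ) : ℤ) = (g.natDegree : ℤ) - 1 := by
      push_cast [Nat.cast_sub (by omega : 1 ≤ g.natDegree)]; rfl
    rw [Nat.cast_mul, hcast, mul_comm (ν : ℤ)]
    exact mul_dvd_mul_left _ hν
  rw [hpp] at e2
  have h3 := dvd_sub (hdv.trans e1) (hdv.trans e2)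
  have h4 : log (v.valuation K (p - q)) - log (v.valuation K p) -
      (log (v.valuation K (p' - q')) - log (v.valuation K p)) =
      log (v.valuation K (p - q)) - log (v.valuation K (p' - q')) := by ring
  rwa [h4] at h3

/-- differences which agree at the good primes agree up to powers and finitely many constants -/
theorem power (K : Type) [Field K] [NumberField K] (d ν N : ℕ) (hd : 2 ≤ d) (hν : 1 ≤ ν)
    (hN : N ≠ 0) : ∃ A : Finset K, (∀ a ∈ A, a ≠ 0) ∧ ∀ (g : K[X]) (c : K), g.natDegree = d →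
    Hyp ν N g c → ∀ p q p' q' : K, Pre g c p → Pre g c q → Pre g c p' → Pre g c q' →
    p ≠ q → p' ≠ q' →
    (∀ v : HeightOneSpectrum (𝓞 K), (N : 𝓞 K) ∉ v.asIdeal → v.valuation K c ≤ 1 →
      v.valuation K (p - q) = v.valuation K (p' - q')) →
    ∃ a ∈ A, ∃ z : K, z ≠ 0 ∧ p - q = a * z ^ (ν * (d - 1)) * (p' - q') := by
  have hN' : ((N * d : ℕ) : 𝓞 K) ≠ 0 := by
    have : N * d ≠ 0 := Nat.mul_ne_zero hN (by omega)
    exact_mod_cast this
  obtain ⟨A, hA0, hA⟩ := HMW.p_SEL K (ν * (d - 1)) ((N * d : ℕ) : 𝓞 K)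
    (Nat.mul_pos (by omega) (by omega)) hN'
  refine ⟨A, hA0, fun g c hgd h p q p' q' hp hq hp' hq' h1 h2 hgood => ?_⟩
  have hne : p' - q' ≠ 0 := sub_ne_zero.2 h2
  have hne1 : p - q ≠ 0 := sub_ne_zero.2 h1
  obtain ⟨a, ha, z, hz, hx⟩ := hA ((p - q) / (p' - q')) (div_ne_zero hne1 hne) fun v hv => by
    have hvN : (N : 𝓞 K) ∉ v.asIdeal := by
      intro hmem
      apply hv
      rw [Nat.cast_mul]
      exact v.asIdeal.mul_mem_right _ hmem
    have hvd : (d : 𝓞 K) ∉ v.asIdeal := by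
      intro hmem
      apply hv
      rw [Nat.cast_mul]
      exact v.asIdeal.mul_mem_left _ hmem
    have e1 : v.valuation K (p - q) ≠ 0 := ((v.valuation K).ne_zero_iff).mpr hne1
    have e2 : v.valuation K (p' - q') ≠ 0 := ((v.valuation K).ne_zero_iff).mpr hne
    rw [map_div₀, WithZero.log_div e1 e2]
    rcases le_or_gt (v.valuation K c) 1 with hc | hc
    · rw [hgood v hvN hc, sub_self]
      exact dvd_zero _
    · exact bad_cong hd hgd h v hvN hvd hc hp hq hp' hq' h1 h2
  refine ⟨a, ha, z, hz, ?_⟩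
  rw [← hx, div_mul_cancel₀ _ hne]

end Pool.Agent.PDP
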