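import Pool.Agent.PDP.Count

set_option autoImplicit false

/-!
# PDP: polynomials in `x^m`, local part and cycles
-/

open Polynomial Height Height.AdmissibleAbsValues NumberField IsDedekindDomain
open scoped WithZero

noncomputable section

namespace Pool.Agent.PDP

section Loc

variable {L Γ : Type} [Field L] [LinearOrderedCommGroupWithZero Γ] {w : Valuation L Γ} {g : L[X]}
  {c : L} {m : ℕ} {ω : L}

lemma fg_expand (x : L) : fg (Polynomial.expand L m g) c x = g.eval (x ^ m) + c := by
  rw [fg, expand_eval]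

lemma fg_rot (hω : ω ^ m = 1) (x : L) :
    fg (Polynomial.expand L m g) c (ω * x) = fg (Polynomial.expand L m g) c x := by
  rw [fg_expand, fg_expand, mul_pow, hω, one_mul]

lemma pre_rot (hω : ω ^ m = 1) {x : L} (hx : Pre (Polynomial.expand L m g) c x) :
    Pre (Polynomial.expand L m g) c (ω * x) := by
  refine pre_of_it 1 ?_
  rw [Function.iterate_one, fg_rot hω]
  exact pre_fg hx

/-- `x^m - z^m` is divisible by `(x - z) (x - ω z)` -/
lemma pow_fac (hω : ω ^ m = 1) (hω1 : ω ≠ 1) (x z : L) : x ^ m - z ^ m =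
    (∑ i ∈ Finset.range m, Si i x (ω * z) * z ^ (m - 1 - i)) * (x - ω * z) * (x - z) := by
  rw [← Si_mul]
  congr 1
  have h1 : Si m (ω * z) z = 0 := by
    unfold Si
    have h2 : ∀ j ∈ Finset.range m, (ω * z) ^ j * z ^ (m - 1 - j) = ω ^ j * z ^ (m - 1) := by
      intro j hj
      rw [Finset.mem_range] at hj
      rw [mul_pow, mul_assoc, ← pow_add]
      congr 2
      omega
    rw [Finset.sum_congr rfl h2, ← Finset.sum_mul]
    have h3 : (∑ j ∈ Finset.range m, ω ^ j) * (ω - 1) = 0 := by
      rw [geom_sum_mul, hω, sub_self]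
    rw [(mul_eq_zero.1 h3).resolve_right (sub_ne_zero.2 hω1), zero_mul]
  calc Si m x z = Si m x z - Si m (ω * z) z := by rw [h1, sub_zero]
    _ = ∑ i ∈ Finset.range m, (x ^ i - (ω * z) ^ i) * z ^ (m - 1 - i) := by
      unfold Si
      rw [← Finset.sum_sub_distrib]
      refine Finset.sum_congr rfl fun i _ => ?_
      ring
    _ = _ := by
      rw [Finset.sum_mul]
      refine Finset.sum_congr rfl fun i _ => ?_
      rw [← Si_mul]
      ring

lemma w_root (hm : 0 < m) (hω : ω ^ m = 1) : w ω = 1 := by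
  have h1 := congrArg w hω
  rw [map_pow, map_one] at h1
  exact (pow_eq_one_iff_of_nonneg zero_le hm.ne').1 h1

lemma Si_le_one {x y : L} (hx : w x ≤ 1) (hy : w y ≤ 1) (i : ℕ) : w (Si i x y) ≤ 1 := by
  rcases i with _ | i
  · simp [Si]
  · have := Si_le hx hy i
    rwa [one_pow] at this

lemma coeff_le_of_expand (hm : 0 < m) (hg : IG w (Polynomial.expand L m g)) (i : ℕ) :
    w (g.coeff i) ≤ 1 := by
  have h := hg.1 (i * m)
  rwa [coeff_expand_mul hm] at h

/-- if `f` does not contract the distance of `x` and `z` then `x - ω z` is a unit -/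
lemma sym_unit (hm : 0 < m) (hω : ω ^ m = 1) (hω1 : ω ≠ 1)
    (hg : IG w (Polynomial.expand L m g)) {x z : L} (hx : w x ≤ 1) (hz : w z ≤ 1) (hxz : x ≠ z)
    (h : w (fg (Polynomial.expand L m g) c x - fg (Polynomial.expand L m g) c z) = w (x - z)) :
    w (x - ω * z) = 1 := by
  have hωw : w (ω * z) ≤ 1 := by rw [map_mul, w_root hm hω, one_mul]; exact hz
  have hle : w (x - ω * z) ≤ 1 := (Valuation.map_sub w _ _).trans (max_le hx hωw)
  have e1 : fg (Polynomial.expand L m g) c x - fg (Polynomial.expand L m g) c z =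
      (∑ i ∈ Finset.range (g.natDegree + 1), g.coeff i * Si i (x ^ m) (z ^ m)) *
        ((∑ i ∈ Finset.range m, Si i x (ω * z) * z ^ (m - 1 - i)) * (x - ω * z) * (x - z)) := by
    rw [← pow_fac hω hω1, ← eval_sub_eval, fg_expand, fg_expand]
    ring
  have f1 : w (∑ i ∈ Finset.range (g.natDegree + 1), g.coeff i * Si i (x ^ m) (z ^ m)) ≤ 1 := by
    refine Valuation.map_sum_le w fun i _ => ?_
    rw [map_mul]
    refine mul_le_one' (coeff_le_of_expand hm hg i) (Si_le_one ?_ ?_ i)
    · rw [map_pow]; exact pow_le_one' hx _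
    · rw [map_pow]; exact pow_le_one' hz _
  have f2 : w (∑ i ∈ Finset.range m, Si i x (ω * z) * z ^ (m - 1 - i)) ≤ 1 := by
    refine Valuation.map_sum_le w fun i _ => ?_
    rw [map_mul, map_pow]
    exact mul_le_one' (Si_le_one hx hωw i) (pow_le_one' hz _)
  have hw0 : w (x - z) ≠ 0 := (Valuation.ne_zero_iff w).2 (sub_ne_zero.2 hxz)
  rw [e1, map_mul, map_mul, map_mul] at h
  refine le_antisymm hle ?_
  have h2 : w (x - z) ≤ w (x - ω * z) * w (x - z) := by
    calc w (x - z) = _ := h.symm
      _ ≤ 1 * (1 * w (x - ω * z) * w (x - z)) := by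
        refine mul_le_mul' f1 (mul_le_mul' (mul_le_mul' f2 le_rfl) le_rfl)
      _ = w (x - ω * z) * w (x - z) := by rw [one_mul, one_mul]
  have h3 : 1 * w (x - z) ≤ w (x - ω * z) * w (x - z) := by rwa [one_mul]
  exact le_of_mul_le_mul_right h3 (zero_lt_iff.2 hw0)

/-- `f` preserves the distances of periodic points -/
lemma per_const (hg : IG w g) (hd : 2 ≤ g.natDegree) (hc : w c ≤ 1) {x z : L}
    (hx : x ∈ Function.periodicPts (fg g c)) (hz : z ∈ Function.periodicPts (fg g c)) :
    w (fg g c x - fg g c z) = w (x - z) := by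
  obtain ⟨a, ha, hxa⟩ := hx
  obtain ⟨b, hb, hzb⟩ := hz
  have h1 : (fg g c)^[a * b] x = x := hxa.mul_const b
  have h2 : (fg g c)^[a * b] z = z := by
    rw [mul_comm]
    exact hzb.mul_const a
  have hab : 0 < a * b := Nat.mul_pos ha hb
  have px : Pre g c x := pre_of_periodic hab h1
  have pz : Pre g c z := pre_of_periodic hab h2
  refine le_antisymm (lip_it hg hd hc px pz 1) ?_
  have h3 := lip_it hg hd hc (pre_fg px) (pre_fg pz) (a * b - 1)
  rw [← Function.iterate_succ_apply, ← Function.iterate_succ_apply,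
    show (a * b - 1).succ = a * b by omega, h1, h2] at h3
  exact h3

/-- `f` is injective on periodic points -/
lemma per_inj {x z : L} (hx : x ∈ Function.periodicPts (fg g c))
    (hz : z ∈ Function.periodicPts (fg g c)) (h : fg g c x = fg g c z) : x = z := by
  obtain ⟨a, ha, hxa⟩ := hx
  obtain ⟨b, hb, hzb⟩ := hz
  have h1 : (fg g c)^[a * b] x = x := hxa.mul_const b
  have h2 : (fg g c)^[a * b] z = z := by
    rw [mul_comm]
    exact hzb.mul_const a
  have hab : 0 < a * b := Nat.mul_pos ha hb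
  obtain ⟨k, hk⟩ : ∃ k, a * b = k + 1 := ⟨a * b - 1, by omega⟩
  rw [← h1, ← h2, hk, Function.iterate_succ_apply, Function.iterate_succ_apply, h]

end Loc

end Pool.Agent.PDP
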