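import Pool.Agent.PDP.Sym

set_option autoImplicit false

/-!
# PDP: polynomials in `x^m`, the number of periodic points
-/

open Polynomial Height Height.AdmissibleAbsValues NumberField IsDedekindDomain
open scoped WithZero

noncomputable section

namespace Pool.Agent.PDP

/-- the algebra for three points -/
lemma three {K : Type} [Field K] {M : ℕ} {ζ ρ x y z a b u v : K} (hρ : ζ ^ 2 * ρ = 1)
    (hq : z - ρ * x ≠ 0) (h1 : x - ζ * y = a * u ^ M * (z - ρ * x))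
    (h2 : y - ζ * z = b * v ^ M * (z - ρ * x)) :
    -(ζ⁻¹) ^ 2 * (x - ζ * y) / (z - ρ * x) = (-(ζ⁻¹) ^ 2 * a) * u ^ M ∧
    1 - (-(ζ⁻¹) ^ 2 * (x - ζ * y) / (z - ρ * x)) = (-ζ⁻¹ * b) * v ^ M := by
  have hζ : ζ ≠ 0 := by
    rintro rfl
    rw [zero_pow (by norm_num), zero_mul] at hρ
    exact zero_ne_one hρ
  constructor
  · rw [h1, ← mul_assoc, mul_div_cancel_right₀ _ hq]
    ring
  · have e : 1 - (-(ζ⁻¹) ^ 2 * (x - ζ * y) / (z - ρ * x)) =
        -ζ⁻¹ * (y - ζ * z) / (z - ρ * x) := by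
      have hρ' : ρ = (ζ⁻¹) ^ 2 := by
        field_simp
        linear_combination hρ
      rw [eq_div_iff hq, sub_mul, div_mul_cancel₀ _ hq, hρ']
      field_simp
      ring
    rw [e, h2, ← mul_assoc, mul_div_cancel_right₀ _ hq]
    ring

/-- all periodic points of polynomials in `x^m` -/
theorem sym_cyc (hG : HMW.T_KGU) (L : Type) [Field L] [NumberField L] (d ν N m : ℕ) (hd : 2 ≤ d)
    (hν : 1 ≤ ν) (hN : N ≠ 0) (hM : 5 ≤ ν * (d - 1)) (hm : 3 ≤ m) (ζ : L)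
    (hζ : IsPrimitiveRoot ζ m) : ∃ B : ℕ, ∀ (g : L[X]) (c : L),
    (Polynomial.expand L m g).natDegree = d → Hyp ν N (Polynomial.expand L m g) c →
    ∀ S : Finset L, (∀ x ∈ S, x ∈ Function.periodicPts (fg (Polynomial.expand L m g) c)) →
    S.card ≤ B := by
  classical
  obtain ⟨A, hA0, hA⟩ := power L d ν N hd hν hN
  set M := ν * (d - 1) with hMdef
  have hζ0 : ζ ≠ 0 := hζ.ne_zero (by omega)
  set A' : Finset L := (A.image fun a => -(ζ⁻¹) ^ 2 * a) ∪ (A.image fun a => -ζ⁻¹ * a) with hA'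
  have hA'0 : ∀ a ∈ A', a ≠ 0 := by
    intro a ha
    rw [hA', Finset.mem_union, Finset.mem_image, Finset.mem_image] at ha
    have h1 : ζ⁻¹ ≠ 0 := inv_ne_zero hζ0
    rcases ha with ⟨b, hb, rfl⟩ | ⟨b, hb, rfl⟩
    · exact mul_ne_zero (neg_ne_zero.2 (pow_ne_zero _ h1)) (hA0 _ hb)
    · exact mul_ne_zero (neg_ne_zero.2 h1) (hA0 _ hb)
  obtain ⟨B, hB⟩ := wb hG L A' hA'0 M hM
  refine ⟨2 * B + 2, fun g c hgd h S hS => ?_⟩
  by_contra hcon
  push Not at hcon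
  set f := fg (Polynomial.expand L m g) c with hf
  obtain ⟨x, hx⟩ : S.Nonempty := Finset.card_pos.1 (by omega)
  have hcx : (S.erase x).card = S.card - 1 := Finset.card_erase_of_mem hx
  obtain ⟨Y, hYs, hYc⟩ := Finset.exists_subset_card_eq (s := S.erase x) (n := B + 1) (by omega)
  have hcx2 : ((S.erase x) \ Y).card = S.card - 1 - (B + 1) := by
    rw [Finset.card_sdiff_of_subset hYs, hcx, hYc]
  obtain ⟨Z, hZs, hZc⟩ := Finset.exists_subset_card_eq (s := (S.erase x) \ Y) (n := B + 1)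
    (by omega)
  set ρ := ζ ^ (m - 2) with hρdef
  have hρ : ζ ^ 2 * ρ = 1 := by
    rw [hρdef, ← pow_add, show 2 + (m - 2) = m by omega, hζ.pow_eq_one]
  have hζm : ζ ^ m = 1 := hζ.pow_eq_one
  have hρm : ρ ^ m = 1 := by rw [hρdef, ← pow_mul, mul_comm, pow_mul, hζm, one_pow]
  have hζ1 : ζ ≠ 1 := hζ.ne_one (by omega)
  have hρ1 : ρ ≠ 1 := hζ.pow_ne_one_of_pos_of_lt (by omega) (by omega)
  -- differences
  have hpre : ∀ y ∈ S, Pre (Polynomial.expand L m g) c y := by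
    intro y hy
    obtain ⟨n, hn, hyn⟩ := hS y hy
    exact pre_of_periodic hn hyn
  have hne : ∀ y ∈ S, ∀ z ∈ S, y ≠ z → ∀ ω : L, ω ^ m = 1 → y ≠ ω * z := by
    intro y hy z hz hyz ω hω he
    apply hyz
    refine per_inj (hS y hy) (hS z hz) ?_
    rw [he, fg_rot hω]
  have hunit : ∀ (v : HeightOneSpectrum (𝓞 L)), (N : 𝓞 L) ∉ v.asIdeal → v.valuation L c ≤ 1 →
      ∀ y ∈ S, ∀ z ∈ S, y ≠ z → ∀ ω : L, ω ^ m = 1 → ω ≠ 1 → v.valuation L (y - ω * z) = 1 := by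
    intro v hv hc y hy z hz hyz ω hω hω1
    exact sym_unit (by omega) hω hω1 (h.ig v hv) (pre_le (h.ig v hv) (by omega) hc (hpre y hy))
      (pre_le (h.ig v hv) (by omega) hc (hpre z hz)) hyz
      (per_const (h.ig v hv) (by omega) hc (hS y hy) (hS z hz))
  have hpow : ∀ y ∈ S, ∀ z ∈ S, ∀ y' ∈ S, ∀ z' ∈ S, y ≠ z → y' ≠ z' → ∀ ω ω' : L, ω ^ m = 1 →
      ω' ^ m = 1 → ω ≠ 1 → ω' ≠ 1 → ∃ a ∈ A, ∃ t : L, t ≠ 0 ∧
      y - ω * z = a * t ^ M * (y' - ω' * z') := by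
    intro y hy z hz y' hy' z' hz' h1 h2 ω ω' hω hω' e1 e2
    refine hA _ c hgd h _ _ _ _ (hpre y hy) (pre_rot hω (hpre z hz)) (hpre y' hy')
      (pre_rot hω' (hpre z' hz')) (hne y hy z hz h1 ω hω) (hne y' hy' z' hz' h2 ω' hω')
      fun v hv hc => ?_
    rw [hunit v hv hc y hy z hz h1 ω hω e1, hunit v hv hc y' hy' z' hz' h2 ω' hω' e2]
  have hY : ∀ y ∈ Y, y ∈ S ∧ y ≠ x := by
    intro y hy
    have := hYs hy
    rw [Finset.mem_erase] at this
    exact ⟨this.2, this.1⟩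
  have hZ : ∀ z ∈ Z, z ∈ S ∧ z ≠ x ∧ z ∉ Y := by
    intro z hz
    have := hZs hz
    rw [Finset.mem_sdiff, Finset.mem_erase] at this
    exact ⟨this.1.2, this.1.1, this.2⟩
  have hζi : ζ⁻¹ ≠ 0 := inv_ne_zero hζ0
  have hfin := hB (Y.image fun y => -(ζ⁻¹) ^ 2 * (x - ζ * y)) (Z.image fun z => z - ρ * x) (by
      intro p hp
      obtain ⟨y, hy, rfl⟩ := Finset.mem_image.1 hp
      exact mul_ne_zero (neg_ne_zero.2 (pow_ne_zero _ hζi))
        (sub_ne_zero.2 (hne x hx y (hY y hy).1 (hY y hy).2.symm ζ hζm))) (by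
      intro q hq
      obtain ⟨z, hz, rfl⟩ := Finset.mem_image.1 hq
      exact sub_ne_zero.2 (hne z (hZ z hz).1 x hx (hZ z hz).2.1 ρ hρm)) (by
      intro p hp q hq
      obtain ⟨y, hy, rfl⟩ := Finset.mem_image.1 hp
      obtain ⟨z, hz, rfl⟩ := Finset.mem_image.1 hq
      obtain ⟨yS, yx⟩ := hY y hy
      obtain ⟨zS, zx, zY⟩ := hZ z hz
      have hyz : y ≠ z := fun he => zY (he ▸ hy)
      obtain ⟨a, ha, t, -, e1⟩ := hpow x hx y yS z zS x hx yx.symm zx ζ ρ hζm hρm hζ1 hρ1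
      obtain ⟨b, hb, t', -, e2⟩ := hpow y yS z zS z zS x hx hyz zx ζ ρ hζm hρm hζ1 hρ1
      obtain ⟨r1, r2⟩ := three hρ (sub_ne_zero.2 (hne z zS x hx zx ρ hρm)) e1 e2
      refine ⟨⟨_, ?_, t, r1⟩, _, ?_, t', r2⟩
      · rw [hA', Finset.mem_union]
        exact Or.inl (Finset.mem_image_of_mem _ ha)
      · rw [hA', Finset.mem_union]
        exact Or.inr (Finset.mem_image_of_mem _ hb))
  rw [Finset.card_image_of_injective, Finset.card_image_of_injective, hYc, hZc] at hfin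
  · omega
  · intro a b hab
    exact sub_left_injective hab
  · intro a b hab
    have h1 : -(ζ⁻¹) ^ 2 * (x - ζ * a) = -(ζ⁻¹) ^ 2 * (x - ζ * b) := hab
    have h2 := mul_left_cancel₀ (neg_ne_zero.2 (pow_ne_zero 2 hζi)) h1
    exact mul_left_cancel₀ hζ0 (sub_right_injective h2)

end Pool.Agent.PDP
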