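import Pool.Agent.PDP.SymTail

set_option autoImplicit false

/-!
# PDP: polynomials in `x^m` over a field with the `m`-th roots of unity
-/

open Polynomial Height Height.AdmissibleAbsValues NumberField IsDedekindDomain
open scoped WithZero Nat

noncomputable section

namespace Pool.Agent.PDP

/-- T3 over a field with the roots of unity -/
theorem main3L (hG : HMW.T_KGU) (L : Type) [Field L] [NumberField L] (d ν N m : ℕ) (hd : 2 ≤ d)
    (hν : 1 ≤ ν) (hN : N ≠ 0) (hM : 5 ≤ ν * (d - 1)) (hm : 3 ≤ m) (ζ : L)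
    (hζ : IsPrimitiveRoot ζ m) : ∃ B : ℕ, ∀ (g : L[X]) (c : L),
    (Polynomial.expand L m g).natDegree = d → Hyp ν N (Polynomial.expand L m g) c →
    {x : L | ∃ k n : ℕ, Function.minimalPeriod (fg (Polynomial.expand L m g) c)
      ((fg (Polynomial.expand L m g) c)^[k] x) = n ∧ 0 < n ∧ (k = 0 ∨ 2 ≤ n)}.encard ≤
      (B : ℕ∞) := by
  classical
  obtain ⟨B₁, hB₁⟩ := sym_cyc hG L d ν N m hd hν hN hM hm ζ hζ
  obtain ⟨B₂, hB₂⟩ := sym_tail hG L d ν N m hd hν hN hM hm ζ hζ
  obtain ⟨B₃, hB₃⟩ := tail_le hG L d ν N hd hν hN hM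
  set Λ : ℕ := B₁ ! with hΛ
  have hΛ0 : 0 < Λ := Nat.factorial_pos _
  refine ⟨d ^ ((B₂ + 1) + (B₃ + 1) * Λ + Λ), fun g c hgd h => ?_⟩
  set G := Polynomial.expand L m g with hGdef
  refine few_points (c := c) hd hgd Λ ((B₂ + 1) + (B₃ + 1) * Λ) hΛ0 _ ?_
  rintro x ⟨k, n, hn, hn0, hk⟩
  have hcard : n ≤ B₁ := by
    have hinj : Set.InjOn (fun i => (fg G c)^[i] ((fg G c)^[k] x)) (Finset.range n) := by
      intro i hi j hj hij
      rw [Finset.mem_coe, Finset.mem_range] at hi hj
      by_contra hcon
      exact cyc_ne (g := G) (c := c) (x := (fg G c)^[k] x) (by rw [hn]; exact hi)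
        (by rw [hn]; exact hj) hcon hij
    have h1 := hB₁ g c hgd h ((Finset.range n).image fun i => (fg G c)^[i] ((fg G c)^[k] x))
      (by
        intro y hy
        obtain ⟨i, -, rfl⟩ := Finset.mem_image.1 hy
        refine Function.minimalPeriod_pos_iff_mem_periodicPts.1 ?_
        rw [Function.minimalPeriod_apply_iterate
          (Function.minimalPeriod_pos_iff_mem_periodicPts.1 (by rw [hn]; exact hn0)), hn]
        exact hn0)
    rwa [Finset.card_image_of_injOn hinj, Finset.card_range] at h1
  have hdv : n ∣ Λ := Nat.dvd_factorial hn0 hcard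
  rcases hk with rfl | hk
  · refine ⟨0, by rw [hn]; exact hn0, by rw [hn]; exact hdv, fun t ht => ?_⟩
    exfalso
    apply ht
    have hx : x ∈ Function.periodicPts (fg G c) :=
      Function.minimalPeriod_pos_iff_mem_periodicPts.1 (by
        have : Function.minimalPeriod (fg G c) x = n := hn
        rw [this]; exact hn0)
    obtain ⟨m, hm, hmm⟩ := hx
    refine ⟨m, hm, ?_⟩
    change (fg G c)^[m] ((fg G c)^[t] x) = _
    rw [← Function.iterate_add_apply, add_comm m t, Function.iterate_add_apply]
    exact congrArg _ hmm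
  · refine ⟨k, by rw [hn]; exact hn0, by rw [hn]; exact hdv, fun t ht _ hper => ?_⟩
    rw [hn] at hper
    rcases hk.lt_or_eq with hk3 | hk2
    · calc t + 1 ≤ (B₃ + 1) * n := hB₃ G c hgd h x n t hk3 hper ht
        _ ≤ (B₃ + 1) * Λ := Nat.mul_le_mul_left _ (Nat.le_of_dvd hΛ0 hdv)
        _ ≤ (B₂ + 1) + (B₃ + 1) * Λ := Nat.le_add_left _ _
    · have h1 := hB₂ g c hgd h x t (by rw [hper, hk2]) ht
      omega

/-- the minimal period does not change under an extension of fields -/
lemma minPer_up {K L : Type} [Field K] [Field L] [Algebra K L] (g : K[X]) (c x : K) :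
    (∀ k : ℕ, (fg (g.map (algebraMap K L)) (algebraMap K L c))^[k] (algebraMap K L x) =
      algebraMap K L ((fg g c)^[k] x)) ∧
    ∀ k : ℕ, Function.minimalPeriod (fg (g.map (algebraMap K L)) (algebraMap K L c))
      ((fg (g.map (algebraMap K L)) (algebraMap K L c))^[k] (algebraMap K L x)) =
      Function.minimalPeriod (fg g c) ((fg g c)^[k] x) := by
  have h1 : ∀ y : K, fg (g.map (algebraMap K L)) (algebraMap K L c) (algebraMap K L y) =
      algebraMap K L (fg g c y) := by
    intro y
    unfold fg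
    rw [eval_map, eval₂_at_apply, map_add]
  have h2 : ∀ (k : ℕ) (y : K), (fg (g.map (algebraMap K L)) (algebraMap K L c))^[k]
      (algebraMap K L y) = algebraMap K L ((fg g c)^[k] y) := by
    intro k y
    induction k with
    | zero => rfl
    | succ k ih => rw [Function.iterate_succ_apply', Function.iterate_succ_apply', ih, h1]
  refine ⟨fun k => h2 k x, fun k => ?_⟩
  rw [h2, Function.minimalPeriod_eq_minimalPeriod_iff]
  intro n
  unfold Function.IsPeriodicPt Function.IsFixedPt
  rw [h2]
  exact (algebraMap K L).injective.eq_iff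

/-- the hypotheses over an extension -/
lemma hyp_up {K L : Type} [Field K] [NumberField K] [Field L] [NumberField L] [Algebra K L]
    {ν N : ℕ} {g : K[X]} {c : K} (hd : 2 ≤ g.natDegree) (h : Hyp ν N g c) {x : K}
    (hx : Pre g c x) : Hyp ν N (g.map (algebraMap K L)) (algebraMap K L c) := by
  have key : ∀ w : HeightOneSpectrum (𝓞 L), (N : 𝓞 L) ∉ w.asIdeal →
      ∃ v : HeightOneSpectrum (𝓞 K), (N : 𝓞 K) ∉ v.asIdeal ∧ ∃ e : ℕ, e ≠ 0 ∧
      ∀ y : K, w.valuation L (algebraMap K L y) = v.valuation K y ^ e := by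
    intro w hw
    have hprime : (w.asIdeal.under (𝓞 K)).IsPrime := w.isPrime.under _
    have hbot : w.asIdeal.under (𝓞 K) ≠ ⊥ := by
      exact Ideal.IsIntegral.comap_ne_bot (𝓞 K) w.ne_bot
    let v : HeightOneSpectrum (𝓞 K) := ⟨w.asIdeal.under (𝓞 K), hprime, hbot⟩
    have : w.asIdeal.LiesOver v.asIdeal := ⟨rfl⟩
    refine ⟨v, ?_, v.asIdeal.ramificationIdx' w.asIdeal, ?_, fun y => ?_⟩
    · intro hmem
      apply hw
      have h1 : algebraMap (𝓞 K) (𝓞 L) (N : 𝓞 K) ∈ w.asIdeal := hmem
      rwa [map_natCast] at h1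
    · exact Ideal.IsDedekindDomain.ramificationIdx'_ne_zero_of_liesOver w.asIdeal v.ne_bot
    · exact (HeightOneSpectrum.valuation_liesOver L v w y).symm
  refine ⟨fun w hw => ?_, fun w hw k hk hlog => ?_⟩
  · obtain ⟨v, hv, e, he, hval⟩ := key w hw
    have hI := h.ig v hv
    refine ⟨fun i => ?_, ?_⟩
    · rw [coeff_map, hval]
      exact pow_le_one' (hI.1 i) _
    · rw [leadingCoeff_map, hval, hI.2, one_pow]
  · obtain ⟨v, hv, e, he, hval⟩ := key w hw
    have hI := h.ig v hv
    rw [natDegree_map] at hlog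
    rw [hval, WithZero.log_pow, nsmul_eq_mul] at hlog
    rcases le_or_gt (v.valuation K c) 1 with hc | hc
    · exfalso
      have h1 : WithZero.log (v.valuation K c) ≤ 0 := by
        rcases eq_or_ne (v.valuation K c) 0 with h0 | h0
        · rw [h0, WithZero.log_zero]
        · have := (WithZero.log_le_log h0 one_ne_zero).2 hc
          rwa [WithZero.log_one] at this
      have h2 : (e : ℤ) * WithZero.log (v.valuation K c) ≤ 0 :=
        mul_nonpos_of_nonneg_of_nonpos (Nat.cast_nonneg _) h1
      have h3 : 0 < (g.natDegree : ℤ) * k := by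
        apply mul_pos _ hk
        exact_mod_cast (by omega : 0 < g.natDegree)
      omega
    · have h1 := pre_eq hI hd hc hx
      have h2 : WithZero.log (v.valuation K c) =
          g.natDegree * WithZero.log (v.valuation K x) := by
        rw [← h1, WithZero.log_pow, nsmul_eq_mul]
      have hpos : 0 < WithZero.log (v.valuation K c) := by
        have h0 : v.valuation K c ≠ 0 := (zero_lt_one.trans hc).ne'
        have := (WithZero.log_lt_log one_ne_zero h0).2 hc
        rwa [WithZero.log_one] at this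
      have hg0 : (0 : ℤ) < g.natDegree := by exact_mod_cast (by omega : 0 < g.natDegree)
      have hpx : 0 < WithZero.log (v.valuation K x) := by
        by_contra hle
        push Not at hle
        have := mul_nonpos_of_nonneg_of_nonpos hg0.le hle
        omega
      have h3 := h.dv v hv _ hpx h2
      have h4 : k = e * WithZero.log (v.valuation K x) := by
        rw [h2] at hlog
        have h5 : (g.natDegree : ℤ) * k = g.natDegree * (e * WithZero.log (v.valuation K x)) := by
          rw [← hlog]; ring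
        exact mul_left_cancel₀ hg0.ne' h5
      rw [h4]
      exact h3.mul_left _

end Pool.Agent.PDP
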