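import Pool.Agent.PDP.SymCyc

set_option autoImplicit false

/-!
# PDP: polynomials in `x^m`, tails of cycles of length two
-/

open Polynomial Height Height.AdmissibleAbsValues NumberField IsDedekindDomain
open scoped WithZero

noncomputable section

namespace Pool.Agent.PDP

/-- the Moebius map `r ↦ ζ (r - 1) / ((1 + ζ) (r - ζ))` -/
def mo {L : Type} [Field L] (ζ r : L) : L := ζ * (r - 1) / ((1 + ζ) * (r - ζ))

lemma mo_eq {L : Type} [Field L] {ζ r : L} (h1 : 1 + ζ ≠ 0) (h2 : r - ζ ≠ 0) :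
    mo ζ r = ζ * (ζ - 1) / (1 + ζ) * (r + -ζ)⁻¹ + ζ / (1 + ζ) := by
  have h2' : r + -ζ ≠ 0 := by rwa [← sub_eq_add_neg]
  unfold mo
  rw [← sub_eq_add_neg]
  field_simp
  ring

lemma mo_inj {L : Type} [Field L] {ζ r s : L} (h0 : ζ ≠ 0) (h1 : 1 + ζ ≠ 0) (h2 : r - ζ ≠ 0)
    (h3 : s - ζ ≠ 0) (h4 : ζ - 1 ≠ 0) (h : mo ζ r = mo ζ s) : r = s := by
  unfold mo at h
  rw [div_eq_div_iff (mul_ne_zero h1 h2) (mul_ne_zero h1 h3)] at h
  have h5 : ζ * (1 + ζ) * (ζ - 1) * (s - r) = 0 := by linear_combination h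
  rcases mul_eq_zero.1 h5 with h6 | h6
  · exact absurd h6 (mul_ne_zero (mul_ne_zero h0 h1) h4)
  · exact (sub_eq_zero.1 h6).symm

/-- windows for the preimage of `Sg` -/
lemma win_mo (hG : HMW.T_KGU) (L : Type) [Field L] [NumberField L] (A : Finset L)
    (hA : ∀ a ∈ A, a ≠ 0) (M : ℕ) (hM : 5 ≤ M) (ζ : L) (h0 : ζ ≠ 0) (h1 : 1 + ζ ≠ 0)
    (h4 : ζ - 1 ≠ 0) :
    ∃ B : ℕ, ∀ P Q : Finset L, (∀ p ∈ P, p ≠ 0) → (∀ q ∈ Q, q ≠ 0) →
    (∀ p ∈ P, ∀ q ∈ Q, p / q - ζ ≠ 0 ∧ mo ζ (p / q) ∈ Sg L A M) →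
    P.card ≤ B ∨ Q.card ≤ B := by
  classical
  obtain ⟨K', iK, iNK, iA, hK⟩ := win hG L A hA M hM
  set C : ℝ := 2 * (totalWeight K' * Real.log 2) +
    logHeight₁ (algebraMap L K' (ζ * (ζ - 1) / (1 + ζ))) + logHeight₁ (algebraMap L K' (-ζ)) +
    logHeight₁ (algebraMap L K' (ζ / (1 + ζ))) with hC
  have hh : ∀ r : L, r - ζ ≠ 0 →
      |logHeight₁ (algebraMap L K' (mo ζ r)) - logHeight₁ (algebraMap L K' r)| ≤ C := by
    intro r hr
    have h5 := HMW.KCV6_.hmoe (algebraMap L K' r) (algebraMap L K' (ζ * (ζ - 1) / (1 + ζ)))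
      (algebraMap L K' (-ζ)) (algebraMap L K' (ζ / (1 + ζ)))
      ((_root_.map_ne_zero _).2 (div_ne_zero (mul_ne_zero h0 h4) h1))
    rwa [mo_eq h1 hr, map_add, map_mul, map_inv₀, map_add]
  obtain ⟨B, hB⟩ := hK (4 * C)
  refine ⟨2 * B, fun P Q hP hQ hPQ => ?_⟩
  refine bip L (fun x => logHeight₁ (algebraMap L K' x)) (fun x => zero_le_logHeight₁ _)
    (fun x y => ?_) (fun x => ?_) {r | r - ζ ≠ 0 ∧ mo ζ r ∈ Sg L A M} B (fun T s hs => ?_) P Q
    hP hQ hPQ
  · rw [map_mul]; exact logHeight₁_mul_le _ _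
  · rw [map_inv₀]; exact logHeight₁_inv _
  · rw [← Finset.card_image_of_injOn (f := fun r => mo ζ r) (fun a ha b hb hab =>
      mo_inj h0 h1 (hs a ha).1.1 (hs b hb).1.1 h4 hab)]
    refine hB (T - C) _ fun l hl => ?_
    obtain ⟨r, hr, rfl⟩ := Finset.mem_image.1 hl
    obtain ⟨⟨r1, r2⟩, r3, r4⟩ := hs r hr
    have r5 := abs_le.1 (hh r r1)
    dsimp only at r3 r4
    exact ⟨r2, by linarith [r5.1], by linarith [r5.2]⟩

/-- the algebra for the two points -/
lemma two_alg {K : Type} [Field K] {M : ℕ} {ζ x y a b u v : K} (hy : y ≠ 0) (h1 : 1 + ζ ≠ 0)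
    (hq : x - ζ * y ≠ 0) (e1 : x - 1 * y = a * u ^ M * (x - ζ * y))
    (e2 : x - ζ ^ 2 * y = b * v ^ M * (x - ζ * y)) :
    mo ζ (x / y) = (ζ / (1 + ζ) * a) * u ^ M ∧
    1 - mo ζ (x / y) = ((1 + ζ)⁻¹ * b) * v ^ M := by
  have h2 : x / y - ζ = (x - ζ * y) / y := by
    field_simp
  have h3 : x / y - 1 = (x - 1 * y) / y := by
    field_simp
  have hm : mo ζ (x / y) = ζ / (1 + ζ) * ((x - 1 * y) / (x - ζ * y)) := by
    unfold mo
    rw [h2, h3]
    field_simp
  have hm2 : 1 - mo ζ (x / y) = (1 + ζ)⁻¹ * ((x - ζ ^ 2 * y) / (x - ζ * y)) := by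
    rw [hm]
    field_simp
    ring
  constructor
  · rw [hm, e1, mul_div_cancel_right₀ _ hq]
    ring
  · rw [hm2, e2, mul_div_cancel_right₀ _ hq]
    ring

/-- tails of cycles of length two -/
theorem sym_tail (hG : HMW.T_KGU) (L : Type) [Field L] [NumberField L] (d ν N m : ℕ) (hd : 2 ≤ d)
    (hν : 1 ≤ ν) (hN : N ≠ 0) (hM : 5 ≤ ν * (d - 1)) (hm : 3 ≤ m) (ζ : L)
    (hζ : IsPrimitiveRoot ζ m) : ∃ B : ℕ, ∀ (g : L[X]) (c : L),
    (Polynomial.expand L m g).natDegree = d → Hyp ν N (Polynomial.expand L m g) c →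
    ∀ (x : L) (t : ℕ),
      Function.minimalPeriod (fg (Polynomial.expand L m g) c)
        ((fg (Polynomial.expand L m g) c)^[t + 1] x) = 2 →
      (fg (Polynomial.expand L m g) c)^[t] x ∉
        Function.periodicPts (fg (Polynomial.expand L m g) c) → t ≤ B := by
  classical
  obtain ⟨A, hA0, hA⟩ := power L d ν N hd hν hN
  set M := ν * (d - 1) with hMdef
  have hζ0 : ζ ≠ 0 := hζ.ne_zero (by omega)
  have hζm : ζ ^ m = 1 := hζ.pow_eq_one
  have hζ1 : ζ ≠ 1 := hζ.ne_one (by omega)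
  have hζ2 : ζ ^ 2 ≠ 1 := hζ.pow_ne_one_of_pos_of_lt (by omega) (by omega)
  have h1ζ : 1 + ζ ≠ 0 := by
    intro h0
    apply hζ2
    linear_combination (ζ - 1) * h0
  set A' : Finset L := (A.image fun a => ζ / (1 + ζ) * a) ∪ (A.image fun a => (1 + ζ)⁻¹ * a)
    with hA'
  have hA'0 : ∀ a ∈ A', a ≠ 0 := by
    intro a ha
    rw [hA', Finset.mem_union, Finset.mem_image, Finset.mem_image] at ha
    rcases ha with ⟨b, hb, rfl⟩ | ⟨b, hb, rfl⟩
    · exact mul_ne_zero (div_ne_zero hζ0 h1ζ) (hA0 _ hb)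
    · exact mul_ne_zero (inv_ne_zero h1ζ) (hA0 _ hb)
  obtain ⟨B, hB⟩ := win_mo hG L A' hA'0 M hM ζ hζ0 h1ζ (sub_ne_zero.2 hζ1)
  refine ⟨2 * B + 3, fun g c hgd h x t hper hnot => ?_⟩
  have hn0 : 0 < 2 := by norm_num
  set G := Polynomial.expand L m g with hGdef
  have hfix : (fg G c)^[2] ((fg G c)^[t + 1] x) = (fg G c)^[t + 1] x := by
    rw [← hper]
    exact Function.iterate_minimalPeriod
  have px : Pre G c x := pre_of_it (t + 1) (pre_of_periodic hn0 hfix)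
  set u : ℕ → L := fun i => (fg G c)^[i] x with hu
  have hus : ∀ i, u (i + 1) = fg G c (u i) := by
    intro i
    simp only [hu, Function.iterate_succ_apply']
  have hnp : ∀ i, i ≤ t → u i ∉ Function.periodicPts (fg G c) := by
    intro i hi hmem
    apply hnot
    obtain ⟨k, rfl⟩ := Nat.exists_eq_add_of_le hi
    rw [add_comm i k, Function.iterate_add_apply]
    obtain ⟨m, hm, hmm⟩ := hmem
    refine ⟨m, hm, ?_⟩
    change (fg G c)^[m] ((fg G c)^[k] ((fg G c)^[i] x)) = _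
    rw [← Function.iterate_add_apply, add_comm m k, Function.iterate_add_apply]
    exact congrArg _ hmm
  -- different points
  have hne' : ∀ i j, i ≤ t → i < j → u i ≠ u j := by
    intro i j hi hij he
    apply hnp i hi
    refine ⟨j - i, by omega, ?_⟩
    change (fg G c)^[j - i] ((fg G c)^[i] x) = (fg G c)^[i] x
    rw [← Function.iterate_add_apply, Nat.sub_add_cancel hij.le]
    exact he.symm
  have hne : ∀ i j, i ≤ t → j ≤ t → i ≠ j → u i ≠ u j := by
    intro i j hi hj hij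
    rcases lt_or_gt_of_ne hij with h1 | h1
    · exact hne' i j hi h1
    · exact (hne' j i hj h1).symm
  have hone' : ∀ (v : HeightOneSpectrum (𝓞 L)), (N : 𝓞 L) ∉ v.asIdeal →
      v.valuation L c ≤ 1 → ∀ i j, i ≤ t → i < j → ¬ 2 ∣ (j - i) →
      v.valuation L (u i - u j) = 1 := by
    intro v hv hc i j hi hij hnd
    have e : u j = (fg G c)^[j - i] (u i) := by
      simp only [hu]
      rw [← Function.iterate_add_apply, Nat.sub_add_cancel hij.le]
    rw [e]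
    refine tail_one (h.ig v hv) (by omega) hc (t := t + 1 - i) hn0 ?_ (hnp i hi) hnd
    simp only [hu]
    rw [← Function.iterate_add_apply, show t + 1 - i + i = t + 1 by omega]
    exact hper
  have hone : ∀ (v : HeightOneSpectrum (𝓞 L)), (N : 𝓞 L) ∉ v.asIdeal →
      v.valuation L c ≤ 1 → ∀ i j, i ≤ t → j ≤ t → i % 2 ≠ j % 2 →
      v.valuation L (u i - u j) = 1 := by
    intro v hv hc i j hi hj hij
    rcases lt_trichotomy i j with h1 | h1 | h1
    · exact hone' v hv hc i j hi h1 (by omega)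
    · exact absurd (by rw [h1]) hij
    · rw [Valuation.map_sub_swap]
      exact hone' v hv hc j i hj h1 (by omega)
  have hneω : ∀ i j, i < t → j < t → i % 2 ≠ j % 2 → ∀ ω : L, ω ^ m = 1 → u i ≠ ω * u j := by
    intro i j hi hj hij ω hω he
    refine hne (i + 1) (j + 1) hi hj (by omega) ?_
    rw [hus, hus, he, hGdef, fg_rot hω]
  have hunit : ∀ (v : HeightOneSpectrum (𝓞 L)), (N : 𝓞 L) ∉ v.asIdeal →
      v.valuation L c ≤ 1 → ∀ i j, i < t → j < t → i % 2 ≠ j % 2 → ∀ ω : L, ω ^ m = 1 →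
      v.valuation L (u i - ω * u j) = 1 := by
    intro v hv hc i j hi hj hij ω hω
    have g1 : v.valuation L (u i) ≤ 1 := pre_le (h.ig v hv) (by omega) hc (pre_it px i)
    have g2 : v.valuation L (ω * u j) ≤ 1 := by
      rw [map_mul, w_root (by omega) hω, one_mul]
      exact pre_le (h.ig v hv) (by omega) hc (pre_it px j)
    refine le_antisymm ((Valuation.map_sub _ _ _).trans (max_le g1 g2)) ?_
    have g3 := lip (c := c) (h.ig v hv) g1 g2
    rw [hGdef, fg_rot hω, ← hGdef, ← hus, ← hus,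
      hone v hv hc (i + 1) (j + 1) hi hj (by omega)] at g3
    exact g3
  have hpow : ∀ i j i' j', i < t → j < t → i % 2 ≠ j % 2 → i' < t → j' < t → i' % 2 ≠ j' % 2 →
      ∀ ω ω' : L, ω ^ m = 1 → ω' ^ m = 1 → ∃ a ∈ A, ∃ s : L, s ≠ 0 ∧
      u i - ω * u j = a * s ^ M * (u i' - ω' * u j') := by
    intro i j i' j' hi hj hij hi' hj' hij' ω ω' hω hω'
    refine hA _ c hgd h _ _ _ _ (pre_it px i) (pre_rot hω (pre_it px j)) (pre_it px i')
      (pre_rot hω' (pre_it px j')) (hneω i j hi hj hij ω hω) (hneω i' j' hi' hj' hij' ω' hω')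
      fun v hv hc => ?_
    rw [hunit v hv hc i j hi hj hij ω hω, hunit v hv hc i' j' hi' hj' hij' ω' hω']
  -- the two sets
  obtain ⟨s, hs⟩ : ∃ s, s = t / 2 := ⟨_, rfl⟩
  have hidx : ∀ a r, a < s → r < 2 → 2 * a + r < t := by
    intro a r ha hr
    omega
  have hcard : ∀ r, r < 2 → s - 1 ≤ (((Finset.range s).image fun a => u (2 * a + r)).erase 0).card
      := by
    intro r hr
    refine le_trans ?_ Finset.pred_card_le_card_erase
    rw [Finset.card_image_of_injOn, Finset.card_range]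
    intro a ha a' ha' he
    rw [Finset.mem_coe, Finset.mem_range] at ha ha'
    by_contra hcon
    exact hne (2 * a + r) (2 * a' + r) (hidx a r ha hr).le (hidx a' r ha' hr).le (by omega) he
  have hfin := hB (((Finset.range s).image fun a => u (2 * a + 0)).erase 0)
    (((Finset.range s).image fun a => u (2 * a + 1)).erase 0)
    (fun p hp => Finset.ne_of_mem_erase hp) (fun p hp => Finset.ne_of_mem_erase hp) (by
    intro p hp q hq
    have hq0 : q ≠ 0 := Finset.ne_of_mem_erase hq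
    obtain ⟨a, ha, rfl⟩ := Finset.mem_image.1 (Finset.mem_of_mem_erase hp)
    obtain ⟨a', ha', rfl⟩ := Finset.mem_image.1 (Finset.mem_of_mem_erase hq)
    rw [Finset.mem_range] at ha ha'
    have i1 := hidx a 0 ha (by norm_num)
    have i2 := hidx a' 1 ha' (by norm_num)
    have hpar : (2 * a + 0) % 2 ≠ (2 * a' + 1) % 2 := by omega
    have hq : u (2 * a + 0) - ζ * u (2 * a' + 1) ≠ 0 := sub_ne_zero.2 (hneω _ _ i1 i2 hpar ζ hζm)
    obtain ⟨α, hα, z, -, e1⟩ := hpow _ _ _ _ i1 i2 hpar i1 i2 hpar 1 ζ (one_pow m) hζm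
    obtain ⟨β, hβ, z', -, e2⟩ := hpow _ _ _ _ i1 i2 hpar i1 i2 hpar (ζ ^ 2) ζ
      (by rw [← pow_mul, mul_comm, pow_mul, hζm, one_pow]) hζm
    obtain ⟨r1, r2⟩ := two_alg hq0 h1ζ hq e1 e2
    refine ⟨?_, ⟨_, ?_, z, r1⟩, _, ?_, z', r2⟩
    · intro h0
      apply hq
      have h1 : u (2 * a + 0) / u (2 * a' + 1) = ζ := sub_eq_zero.1 h0
      rw [div_eq_iff hq0] at h1
      rw [h1, sub_self]
    · rw [hA', Finset.mem_union]
      exact Or.inl (Finset.mem_image_of_mem _ hα)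
    · rw [hA', Finset.mem_union]
      exact Or.inr (Finset.mem_image_of_mem _ hβ))
  have c0 := hcard 0 (by norm_num)
  have c1 := hcard 1 (by norm_num)
  omega

end Pool.Agent.PDP
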