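import Pool.Agent.PDP.Cycle

set_option autoImplicit false

/-!
# PDP: powers of two dividing the length of a cycle, even exponents
-/

open Polynomial Height Height.AdmissibleAbsValues NumberField IsDedekindDomain
open scoped WithZero

noncomputable section

namespace Pool.Agent.PDP

/-- the algebra for four points `a, b, e, f` -/
lemma four {K : Type} [Field K] (M : ℕ) (hM : 2 ∣ M) {a b e f α₁ α₂ α₃ α₄ z₁ z₂ z₃ z₄ : K}
    (hae : a - f ≠ 0) (hbe : b - e ≠ 0) (h4 : α₄ ≠ 0) (hz4 : z₄ ≠ 0)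
    (h1 : a - e = α₁ * z₁ ^ M * (a - f)) (h2 : b - f = α₂ * z₂ ^ M * (b - e))
    (h3 : e - f = α₃ * z₃ ^ M * (a - b)) (h4' : b - e = α₄ * z₄ ^ M * (a - f)) :
    ((a - e) / (b - e)) / ((a - f) / (b - f)) = α₁ * α₂ * (z₁ * z₂) ^ M ∧
    ∃ y : K, ((a - e) / (b - e)) / ((a - f) / (b - f)) - 1 = α₃ / α₄ * y ^ 2 := by
  obtain ⟨m, rfl⟩ := hM
  have e1 : ((a - e) / (b - e)) / ((a - f) / (b - f)) =
      ((a - e) / (a - f)) * ((b - f) / (b - e)) := by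
    rw [div_div_div_eq, div_mul_div_comm]
    ring
  constructor
  · rw [e1, h1, h2, mul_div_cancel_right₀ _ hae, mul_div_cancel_right₀ _ hbe, mul_pow]
    ring
  · refine ⟨(a - b) * z₃ ^ m / ((a - f) * z₄ ^ m), ?_⟩
    have e2 : ((a - e) / (a - f)) * ((b - f) / (b - e)) - 1 =
        (a - b) * (e - f) / ((a - f) * (b - e)) := by
      field_simp
      ring
    rw [e1, e2, h3, h4']
    have hz : z₄ ^ m ≠ 0 := pow_ne_zero _ hz4
    field_simp
    ring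

/-- powers of two dividing the length of a cycle are bounded if `ν (d - 1)` is even -/
theorem two_pow (hG : HMW.T_KGU) (K : Type) [Field K] [NumberField K] (d ν N : ℕ) (hd : 2 ≤ d)
    (hν : 1 ≤ ν) (hN : N ≠ 0) (hM : 5 ≤ ν * (d - 1)) (hM2 : 2 ∣ ν * (d - 1)) :
    ∃ B : ℕ, ∀ (g : K[X]) (c : K),
    g.natDegree = d → Hyp ν N g c → ∀ (x : K) (n : ℕ), 0 < n →
    Function.minimalPeriod (fg g c) x = n → ∀ k : ℕ, 2 ^ k ∣ n → 2 ^ k ≤ B := by
  classical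
  obtain ⟨A, hA0, hA⟩ := power K d ν N hd hν hN
  set A' : Finset K := ((A ×ˢ A).image fun p => p.1 * p.2) ∪ ((A ×ˢ A).image fun p => p.1 / p.2)
    with hA'
  have hA'0 : ∀ a ∈ A', a ≠ 0 := by
    intro a ha
    rw [hA', Finset.mem_union, Finset.mem_image, Finset.mem_image] at ha
    rcases ha with ⟨p, hp, rfl⟩ | ⟨p, hp, rfl⟩
    · rw [Finset.mem_product] at hp
      exact mul_ne_zero (hA0 _ hp.1) (hA0 _ hp.2)
    · rw [Finset.mem_product] at hp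
      exact div_ne_zero (hA0 _ hp.1) (hA0 _ hp.2)
  obtain ⟨B, hB⟩ := wb2 hG K A' hA'0 (ν * (d - 1)) hM
  refine ⟨4 * B + 4, fun g c hgd h x n hn hx k hdvd => ?_⟩
  rcases lt_or_ge k 2 with hk | hk
  · have : 2 ^ k ≤ 2 ^ 1 := Nat.pow_le_pow_right (by norm_num) (by omega)
    omega
  obtain ⟨k, rfl⟩ : ∃ j, k = j + 2 := ⟨k - 2, by omega⟩
  obtain ⟨m, hm⟩ := hdvd
  have hm0 : 0 < m := by
    rcases Nat.eq_zero_or_pos m with h0 | h0
    · rw [h0, mul_zero] at hm; omega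
    · exact h0
  have h4 : 2 ^ (k + 2) = 4 * 2 ^ k := by rw [pow_add]; ring
  set u : ℕ → K := fun i => (fg g c)^[i * m] x with hu
  have hlt : ∀ i, i < 2 ^ (k + 2) → i * m < n := by
    intro i hi
    rw [hm]
    exact Nat.mul_lt_mul_of_pos_right hi hm0
  have hne : ∀ i j, i < 2 ^ (k + 2) → j < 2 ^ (k + 2) → i ≠ j → u i ≠ u j := by
    intro i j hi hj hij
    refine cyc_ne (by rw [hx]; exact hlt i hi) (by rw [hx]; exact hlt j hj) ?_
    intro he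
    exact hij (Nat.eq_of_mul_eq_mul_right hm0 he)
  have hodd : ∀ i j : ℕ, i % 2 ≠ j % 2 →
      Nat.gcd (Int.natAbs ((i : ℤ) - j)) (2 ^ (k + 2)) = 1 := by
    intro i j hij
    refine Nat.Coprime.pow_right _ (Nat.Coprime.symm
      ((Nat.Prime.coprime_iff_not_dvd Nat.prime_two).2 ?_))
    intro hdv
    omega
  have hev : ∀ i j : ℕ, i % 2 = j % 2 → i % 4 ≠ j % 4 →
      Nat.gcd (Int.natAbs ((i : ℤ) - j)) (2 ^ (k + 2)) = 2 := by
    intro i j hij hij4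
    obtain ⟨t, ht⟩ : ∃ t, Int.natAbs ((i : ℤ) - j) = 2 * t := ⟨Int.natAbs ((i : ℤ) - j) / 2, by
      omega⟩
    have ht2 : t % 2 = 1 := by omega
    rw [ht, show 2 ^ (k + 2) = 2 * 2 ^ (k + 1) by rw [pow_succ 2 (k + 1)]; ring,
      Nat.gcd_mul_left]
    have : Nat.gcd t (2 ^ (k + 1)) = 1 := by
      refine Nat.Coprime.pow_right _ (Nat.Coprime.symm
        ((Nat.Prime.coprime_iff_not_dvd Nat.prime_two).2 ?_))
      intro hdv
      omega
    rw [this]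
  have hpow : ∀ r i j i' j' : ℕ, i < 2 ^ (k + 2) → j < 2 ^ (k + 2) → i' < 2 ^ (k + 2) →
      j' < 2 ^ (k + 2) → i ≠ j → i' ≠ j' →
      Nat.gcd (Int.natAbs ((i : ℤ) - j)) (2 ^ (k + 2)) = r →
      Nat.gcd (Int.natAbs ((i' : ℤ) - j')) (2 ^ (k + 2)) = r → ∃ a ∈ A, ∃ z : K, z ≠ 0 ∧
      u i - u j = a * z ^ (ν * (d - 1)) * (u i' - u j') := by
    intro r i j i' j' hi hj hi' hj' e1 e2 hr hr'
    refine cyc_power hd hA hgd h hn hx (hlt i hi) (hlt j hj) (hlt i' hi') (hlt j' hj')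
      (fun he => e1 (Nat.eq_of_mul_eq_mul_right hm0 he))
      (fun he => e2 (Nat.eq_of_mul_eq_mul_right hm0 he)) ?_
    rw [hm, gcd_mul_aux hr, gcd_mul_aux hr']
  have hb0 : 0 < 2 ^ (k + 2) := pow_pos (by norm_num) _
  have hb2 : 2 < 2 ^ (k + 2) := by
    have : 1 ≤ 2 ^ k := Nat.one_le_pow _ _ (by norm_num)
    omega
  have hidx : ∀ a r, a < 2 ^ k → r < 4 → 4 * a + r < 2 ^ (k + 2) := by
    intro a r ha hr
    omega
  have hab : u 0 - u 2 ≠ 0 := sub_ne_zero.2 (hne 0 2 hb0 hb2 (by norm_num))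
  -- injectivity of the Moebius map
  have hmob : ∀ r, r = 1 ∨ r = 3 → ((Finset.range (2 ^ k)).image fun a =>
      (u 0 - u (4 * a + r)) / (u 2 - u (4 * a + r))).card = 2 ^ k := by
    intro r hr
    rw [Finset.card_image_of_injOn, Finset.card_range]
    intro a ha a' ha' he
    rw [Finset.mem_coe, Finset.mem_range] at ha ha'
    have i1 := hidx a r ha (by omega)
    have i2 := hidx a' r ha' (by omega)
    have n1 : u 2 - u (4 * a + r) ≠ 0 := sub_ne_zero.2 (hne 2 _ hb2 i1 (by omega))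
    have n2 : u 2 - u (4 * a' + r) ≠ 0 := sub_ne_zero.2 (hne 2 _ hb2 i2 (by omega))
    have he' : (u 0 - u (4 * a + r)) / (u 2 - u (4 * a + r)) =
      (u 0 - u (4 * a' + r)) / (u 2 - u (4 * a' + r)) := he
    rw [div_eq_div_iff n1 n2] at he'
    have h5 : (u 0 - u 2) * (u (4 * a + r) - u (4 * a' + r)) = 0 := by
      linear_combination he'
    rcases mul_eq_zero.1 h5 with h6 | h6
    · exact absurd h6 hab
    · by_contra hcon
      exact hne _ _ i1 i2 (by omega) (sub_eq_zero.1 h6)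
  have hnz : ∀ r, r = 1 ∨ r = 3 → ∀ p ∈ (Finset.range (2 ^ k)).image fun a =>
      (u 0 - u (4 * a + r)) / (u 2 - u (4 * a + r)), p ≠ 0 := by
    intro r hr p hp
    obtain ⟨a, ha, rfl⟩ := Finset.mem_image.1 hp
    rw [Finset.mem_range] at ha
    have i1 := hidx a r ha (by omega)
    exact div_ne_zero (sub_ne_zero.2 (hne 0 _ hb0 i1 (by omega)))
      (sub_ne_zero.2 (hne 2 _ hb2 i1 (by omega)))
  have hfin := hB ((Finset.range (2 ^ k)).image fun a =>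
      (u 0 - u (4 * a + 1)) / (u 2 - u (4 * a + 1))) ((Finset.range (2 ^ k)).image fun a =>
      (u 0 - u (4 * a + 3)) / (u 2 - u (4 * a + 3))) (hnz 1 (Or.inl rfl)) (hnz 3 (Or.inr rfl)) (by
    intro p hp q hq
    obtain ⟨a, ha, rfl⟩ := Finset.mem_image.1 hp
    obtain ⟨a', ha', rfl⟩ := Finset.mem_image.1 hq
    rw [Finset.mem_range] at ha ha'
    have i1 := hidx a 1 ha (by norm_num)
    have i2 := hidx a' 3 ha' (by norm_num)
    obtain ⟨α₁, m₁, z₁, -, e₁⟩ := hpow 1 0 (4 * a + 1) 0 (4 * a' + 3) hb0 i1 hb0 i2 (by omega)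
      (by omega) (hodd _ _ (by omega)) (hodd _ _ (by omega))
    obtain ⟨α₂, m₂, z₂, -, e₂⟩ := hpow 1 2 (4 * a' + 3) 2 (4 * a + 1) hb2 i2 hb2 i1 (by omega)
      (by omega) (hodd _ _ (by omega)) (hodd _ _ (by omega))
    obtain ⟨α₃, m₃, z₃, -, e₃⟩ := hpow 2 (4 * a + 1) (4 * a' + 3) 0 2 i1 i2 hb0 hb2 (by omega)
      (by omega) (hev _ _ (by omega) (by omega)) (hev _ _ (by omega) (by omega))
    obtain ⟨α₄, m₄, z₄, hz₄, e₄⟩ := hpow 1 2 (4 * a + 1) 0 (4 * a' + 3) hb2 i1 hb0 i2 (by omega)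
      (by omega) (hodd _ _ (by omega)) (hodd _ _ (by omega))
    obtain ⟨r1, y, r2⟩ := four (ν * (d - 1)) hM2 (sub_ne_zero.2 (hne 0 _ hb0 i2 (by omega)))
      (sub_ne_zero.2 (hne 2 _ hb2 i1 (by omega))) (hA0 _ m₄) hz₄ e₁ e₂ e₃ e₄
    refine ⟨⟨α₁ * α₂, ?_, z₁ * z₂, r1⟩, α₃ / α₄, ?_, y, r2⟩
    · rw [hA', Finset.mem_union]
      exact Or.inl (Finset.mem_image.2 ⟨(α₁, α₂), Finset.mem_product.2 ⟨m₁, m₂⟩, rfl⟩)
    · rw [hA', Finset.mem_union]
      exact Or.inr (Finset.mem_image.2 ⟨(α₃, α₄), Finset.mem_product.2 ⟨m₃, m₄⟩, rfl⟩))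
  rw [hmob 1 (Or.inl rfl), hmob 3 (Or.inr rfl)] at hfin
  omega

end Pool.Agent.PDP
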